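import Pool.Agent.Lib_MP_bed364_mp.LstA0

/-!
# MP_bed364_nt, many primes: chunks 0 to 7 of the data set A0
-/

set_option autoImplicit false
set_option maxRecDepth 100000

namespace Pool.Agent.EPM

theorem chA0_0 : chk false 7300000 FA0 (FA0 ++ EA0) 0 ≤ 97088382704 := ble_iff.1 (by decide +kernel)

theorem chA0_1 : chk false 7300000 FA0 (FA0 ++ EA0) 1 ≤ 17680598675 := ble_iff.1 (by decide +kernel)

theorem chA0_2 : chk false 7300000 FA0 (FA0 ++ EA0) 2 ≤ 8523042046 := ble_iff.1 (by decide +kernel)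

theorem chA0_3 : chk false 7300000 FA0 (FA0 ++ EA0) 3 ≤ 4941666692 := ble_iff.1 (by decide +kernel)

theorem chA0_4 : chk false 7300000 FA0 (FA0 ++ EA0) 4 ≤ 3532573681 := ble_iff.1 (by decide +kernel)

theorem chA0_5 : chk false 7300000 FA0 (FA0 ++ EA0) 5 ≤ 2344700454 := ble_iff.1 (by decide +kernel)

theorem chA0_6 : chk false 7300000 FA0 (FA0 ++ EA0) 6 ≤ 1556080672 := ble_iff.1 (by decide +kernel)

theorem chA0_7 : chk false 7300000 FA0 (FA0 ++ EA0) 7 ≤ 1136091741 := ble_iff.1 (by decide +kernel)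

end Pool.Agent.EPM
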