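import Pool.Agent.Lib_MP_bed364_mp.ChA0a

/-!
# MP_bed364_nt, many primes: chunks 8 to 15 of the data set A0
-/

set_option autoImplicit false
set_option maxRecDepth 100000

namespace Pool.Agent.EPM

theorem chA0_8 : chk false 7300000 FA0 (FA0 ++ EA0) 8 ≤ 693545657 := ble_iff.1 (by decide +kernel)

theorem chA0_9 : chk false 7300000 FA0 (FA0 ++ EA0) 9 ≤ 362232324 := ble_iff.1 (by decide +kernel)

theorem chA0_10 : chk false 7300000 FA0 (FA0 ++ EA0) 10 ≤ 132651736 := ble_iff.1 (by decide +kernel)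

theorem chA0_11 : chk false 7300000 FA0 (FA0 ++ EA0) 11 ≤ 2305691 := ble_iff.1 (by decide +kernel)

theorem chA0_12 : chk false 7300000 FA0 (FA0 ++ EA0) 12 ≤ 0 := ble_iff.1 (by decide +kernel)

theorem chA0_13 : chk false 7300000 FA0 (FA0 ++ EA0) 13 ≤ 0 := ble_iff.1 (by decide +kernel)

theorem chA0_14 : chk false 7300000 FA0 (FA0 ++ EA0) 14 ≤ 0 := ble_iff.1 (by decide +kernel)

theorem chA0_15 : chk false 7300000 FA0 (FA0 ++ EA0) 15 ≤ 0 := ble_iff.1 (by decide +kernel)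

end Pool.Agent.EPM
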