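import Pool.Agent.Lib_MP_bed364_mp.LstA1

/-!
# MP_bed364_nt, many primes: chunks 0 to 7 of the data set A1
-/

set_option autoImplicit false
set_option maxRecDepth 100000

namespace Pool.Agent.EPM

theorem chA1_0 : chk true 5150000 FA1 (FA1 ++ EA1) 0 ≤ 96181189412 := ble_iff.1 (by decide +kernel)

theorem chA1_1 : chk true 5150000 FA1 (FA1 ++ EA1) 1 ≤ 16820016275 := ble_iff.1 (by decide +kernel)

theorem chA1_2 : chk true 5150000 FA1 (FA1 ++ EA1) 2 ≤ 7774565909 := ble_iff.1 (by decide +kernel)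

theorem chA1_3 : chk true 5150000 FA1 (FA1 ++ EA1) 3 ≤ 4176391656 := ble_iff.1 (by decide +kernel)

theorem chA1_4 : chk true 5150000 FA1 (FA1 ++ EA1) 4 ≤ 2899728281 := ble_iff.1 (by decide +kernel)

theorem chA1_5 : chk true 5150000 FA1 (FA1 ++ EA1) 5 ≤ 1891889822 := ble_iff.1 (by decide +kernel)

theorem chA1_6 : chk true 5150000 FA1 (FA1 ++ EA1) 6 ≤ 1250695511 := ble_iff.1 (by decide +kernel)

theorem chA1_7 : chk true 5150000 FA1 (FA1 ++ EA1) 7 ≤ 937977361 := ble_iff.1 (by decide +kernel)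

end Pool.Agent.EPM
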