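import Pool.Agent.Lib_MP_bed364_mp.ChA1a

/-!
# MP_bed364_nt, many primes: chunks 8 to 15 of the data set A1
-/

set_option autoImplicit false
set_option maxRecDepth 100000

namespace Pool.Agent.EPM

theorem chA1_8 : chk true 5150000 FA1 (FA1 ++ EA1) 8 ≤ 656984198 := ble_iff.1 (by decide +kernel)

theorem chA1_9 : chk true 5150000 FA1 (FA1 ++ EA1) 9 ≤ 478724301 := ble_iff.1 (by decide +kernel)

theorem chA1_10 : chk true 5150000 FA1 (FA1 ++ EA1) 10 ≤ 363129638 := ble_iff.1 (by decide +kernel)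

theorem chA1_11 : chk true 5150000 FA1 (FA1 ++ EA1) 11 ≤ 292329911 := ble_iff.1 (by decide +kernel)

theorem chA1_12 : chk true 5150000 FA1 (FA1 ++ EA1) 12 ≤ 193236574 := ble_iff.1 (by decide +kernel)

theorem chA1_13 : chk true 5150000 FA1 (FA1 ++ EA1) 13 ≤ 119698377 := ble_iff.1 (by decide +kernel)

theorem chA1_14 : chk true 5150000 FA1 (FA1 ++ EA1) 14 ≤ 58687534 := ble_iff.1 (by decide +kernel)

theorem chA1_15 : chk true 5150000 FA1 (FA1 ++ EA1) 15 ≤ 17348673 := ble_iff.1 (by decide +kernel)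

end Pool.Agent.EPM
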