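import Pool.Agent.Lib_MP_bed364_mp.LstB0

/-!
# MP_bed364_nt, many primes: chunks 0 to 7 of the data set B0
-/

set_option autoImplicit false
set_option maxRecDepth 100000

namespace Pool.Agent.EPM

theorem chB0_0 : chk false 7300000 FB0 (FB0 ++ EB0) 0 ≤ 74876581393 := ble_iff.1 (by decide +kernel)

theorem chB0_1 : chk false 7300000 FB0 (FB0 ++ EB0) 1 ≤ 13783641166 := ble_iff.1 (by decide +kernel)

theorem chB0_2 : chk false 7300000 FB0 (FB0 ++ EB0) 2 ≤ 6735169359 := ble_iff.1 (by decide +kernel)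

theorem chB0_3 : chk false 7300000 FB0 (FB0 ++ EB0) 3 ≤ 3902278810 := ble_iff.1 (by decide +kernel)

theorem chB0_4 : chk false 7300000 FB0 (FB0 ++ EB0) 4 ≤ 2735178923 := ble_iff.1 (by decide +kernel)

theorem chB0_5 : chk false 7300000 FB0 (FB0 ++ EB0) 5 ≤ 1782011369 := ble_iff.1 (by decide +kernel)

theorem chB0_6 : chk false 7300000 FB0 (FB0 ++ EB0) 6 ≤ 1208926465 := ble_iff.1 (by decide +kernel)

theorem chB0_7 : chk false 7300000 FB0 (FB0 ++ EB0) 7 ≤ 893547633 := ble_iff.1 (by decide +kernel)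

end Pool.Agent.EPM
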