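import Pool.Agent.Lib_MP_bed364_mp.ChB0a

/-!
# MP_bed364_nt, many primes: chunks 8 to 15 of the data set B0
-/

set_option autoImplicit false
set_option maxRecDepth 100000

namespace Pool.Agent.EPM

theorem chB0_8 : chk false 7300000 FB0 (FB0 ++ EB0) 8 ≤ 511072682 := ble_iff.1 (by decide +kernel)

theorem chB0_9 : chk false 7300000 FB0 (FB0 ++ EB0) 9 ≤ 281040275 := ble_iff.1 (by decide +kernel)

theorem chB0_10 : chk false 7300000 FB0 (FB0 ++ EB0) 10 ≤ 103590085 := ble_iff.1 (by decide +kernel)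

theorem chB0_11 : chk false 7300000 FB0 (FB0 ++ EB0) 11 ≤ 1850269 := ble_iff.1 (by decide +kernel)

theorem chB0_12 : chk false 7300000 FB0 (FB0 ++ EB0) 12 ≤ 0 := ble_iff.1 (by decide +kernel)

theorem chB0_13 : chk false 7300000 FB0 (FB0 ++ EB0) 13 ≤ 0 := ble_iff.1 (by decide +kernel)

theorem chB0_14 : chk false 7300000 FB0 (FB0 ++ EB0) 14 ≤ 0 := ble_iff.1 (by decide +kernel)

theorem chB0_15 : chk false 7300000 FB0 (FB0 ++ EB0) 15 ≤ 0 := ble_iff.1 (by decide +kernel)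

end Pool.Agent.EPM
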