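import Pool.Agent.Lib_MP_bed364_mp.LstB1

/-!
# MP_bed364_nt, many primes: chunks 0 to 7 of the data set B1
-/

set_option autoImplicit false
set_option maxRecDepth 100000

namespace Pool.Agent.EPM

theorem chB1_0 : chk true 5150000 FB1 (FB1 ++ EB1) 0 ≤ 74242518097 := ble_iff.1 (by decide +kernel)

theorem chB1_1 : chk true 5150000 FB1 (FB1 ++ EB1) 1 ≤ 13061576187 := ble_iff.1 (by decide +kernel)

theorem chB1_2 : chk true 5150000 FB1 (FB1 ++ EB1) 2 ≤ 6059929405 := ble_iff.1 (by decide +kernel)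

theorem chB1_3 : chk true 5150000 FB1 (FB1 ++ EB1) 3 ≤ 3321916687 := ble_iff.1 (by decide +kernel)

theorem chB1_4 : chk true 5150000 FB1 (FB1 ++ EB1) 4 ≤ 2242271577 := ble_iff.1 (by decide +kernel)

theorem chB1_5 : chk true 5150000 FB1 (FB1 ++ EB1) 5 ≤ 1438995696 := ble_iff.1 (by decide +kernel)

theorem chB1_6 : chk true 5150000 FB1 (FB1 ++ EB1) 6 ≤ 977815708 := ble_iff.1 (by decide +kernel)

theorem chB1_7 : chk true 5150000 FB1 (FB1 ++ EB1) 7 ≤ 757100785 := ble_iff.1 (by decide +kernel)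

end Pool.Agent.EPM
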