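import Pool.Agent.Lib_MP_bed364_mp.ChB1a

/-!
# MP_bed364_nt, many primes: chunks 8 to 15 of the data set B1
-/

set_option autoImplicit false
set_option maxRecDepth 100000

namespace Pool.Agent.EPM

theorem chB1_8 : chk true 5150000 FB1 (FB1 ++ EB1) 8 ≤ 513453671 := ble_iff.1 (by decide +kernel)

theorem chB1_9 : chk true 5150000 FB1 (FB1 ++ EB1) 9 ≤ 370283587 := ble_iff.1 (by decide +kernel)

theorem chB1_10 : chk true 5150000 FB1 (FB1 ++ EB1) 10 ≤ 287753884 := ble_iff.1 (by decide +kernel)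

theorem chB1_11 : chk true 5150000 FB1 (FB1 ++ EB1) 11 ≤ 220871727 := ble_iff.1 (by decide +kernel)

theorem chB1_12 : chk true 5150000 FB1 (FB1 ++ EB1) 12 ≤ 141174333 := ble_iff.1 (by decide +kernel)

theorem chB1_13 : chk true 5150000 FB1 (FB1 ++ EB1) 13 ≤ 81150383 := ble_iff.1 (by decide +kernel)

theorem chB1_14 : chk true 5150000 FB1 (FB1 ++ EB1) 14 ≤ 45434880 := ble_iff.1 (by decide +kernel)

theorem chB1_15 : chk true 5150000 FB1 (FB1 ++ EB1) 15 ≤ 12779657 := ble_iff.1 (by decide +kernel)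

end Pool.Agent.EPM
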