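import Pool.Agent.Lib_MP_bed364_mp.Split

/-!
# MP_bed364_nt, many primes: the base constant, chunks
-/

set_option autoImplicit false
set_option maxRecDepth 100000

namespace Pool.Agent.EPM

theorem cA_0 : chA 0 ≤ 36812046098 := ble_iff.1 (by decide +kernel)

theorem cA_1 : chA 1 ≤ 2097102 := ble_iff.1 (by decide +kernel)

theorem cA_2 : chA 2 ≤ 647351 := ble_iff.1 (by decide +kernel)

theorem cA_3 : chA 3 ≤ 318879 := ble_iff.1 (by decide +kernel)

theorem cA_4 : chA 4 ≤ 187474 := ble_iff.1 (by decide +kernel)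

theorem cA_5 : chA 5 ≤ 120910 := ble_iff.1 (by decide +kernel)

theorem cA_6 : chA 6 ≤ 85205 := ble_iff.1 (by decide +kernel)

theorem cA_7 : chA 7 ≤ 65146 := ble_iff.1 (by decide +kernel)

theorem cA_8 : chA 8 ≤ 49567 := ble_iff.1 (by decide +kernel)

theorem cA_9 : chA 9 ≤ 37510 := ble_iff.1 (by decide +kernel)

theorem cA_10 : chA 10 ≤ 31253 := ble_iff.1 (by decide +kernel)

theorem cA_11 : chA 11 ≤ 26589 := ble_iff.1 (by decide +kernel)

theorem cA_12 : chA 12 ≤ 22332 := ble_iff.1 (by decide +kernel)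

theorem cA_13 : chA 13 ≤ 18447 := ble_iff.1 (by decide +kernel)

theorem cA_14 : chA 14 ≤ 16261 := ble_iff.1 (by decide +kernel)

theorem cA_15 : chA 15 ≤ 14895 := ble_iff.1 (by decide +kernel)

end Pool.Agent.EPM
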