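import Mathlib

/-!
# MP_bed364_nt, many primes: the combinatorial inequality

`A`: a finite set, `FS`: pairs (element, price), `ES`: pairs (prime, price) with three hits allowed, `HS`: pairs (prime,
threshold) with at most three elements of `A` in the class.
-/

set_option autoImplicit false

namespace Pool.Agent.EPM

open Finset

variable (FS ES HS : Finset (ℕ × ℕ)) (W : ℕ → ℤ) (v : ℕ → ℕ → ℤ)

/-- the price of the hits -/
def hZ (q : ℕ) : ℤ := ∑ x ∈ FS, (x.2 : ℤ) * v x.1 q + ∑ x ∈ ES, (x.2 : ℤ) * v x.1 q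

/-- the reduced weight -/
def uZ (q : ℕ) : ℤ := max (W q - hZ FS ES v q) 0

theorem class_bound (X B : Finset ℕ) (u : ℕ → ℤ) (hu : ∀ q, 0 ≤ u q) (hBX : B ⊆ X)
    (fs : ℕ → ℕ → Prop) [∀ t q, Decidable (fs t q)]
    (hfs : ∀ q, ∀ x ∈ HS, ∀ y ∈ HS, fs x.1 q → fs y.1 q → x = y)
    (hH : ∀ x ∈ HS, (B.filter fun q => x.1 ∣ q + 1).card ≤ 3) :
    ∑ q ∈ B, u q ≤ ∑ q ∈ X, u q + ∑ x ∈ HS, (3 * (x.2 : ℤ) +
      ∑ q ∈ X.filter (fun q => x.1 ∣ q + 1), max (u q - x.2) 0 -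
      ∑ q ∈ X.filter (fun q => x.1 ∣ q + 1 ∧ fs x.1 q), u q) := by
  classical
  have key : ∀ q ∈ X, (if q ∈ B then u q else 0) ≤ u q +
      ∑ x ∈ HS, ((if x.1 ∣ q + 1 then max (u q - x.2) 0 else 0) +
        (if q ∈ B ∧ x.1 ∣ q + 1 then (x.2 : ℤ) else 0) -
        (if x.1 ∣ q + 1 ∧ fs x.1 q then u q else 0)) := by
    intro q _
    rw [Finset.sum_sub_distrib, Finset.sum_add_distrib]
    have hone : ∑ x ∈ HS, (if x.1 ∣ q + 1 ∧ fs x.1 q then u q else 0) ≤ u q := by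
      by_cases hex : ∃ x ∈ HS, x.1 ∣ q + 1 ∧ fs x.1 q
      · obtain ⟨x, hx, hx1, hx2⟩ := hex
        rw [Finset.sum_eq_single_of_mem x hx]
        · rw [if_pos ⟨hx1, hx2⟩]
        · intro y hy hyx
          rw [if_neg]
          rintro ⟨_, h3⟩
          exact hyx (hfs q y hy x hx h3 hx2)
      · push Not at hex
        rw [Finset.sum_eq_zero]
        · exact hu q
        · intro x hx
          rw [if_neg]
          rintro ⟨h1, h2⟩
          exact hex x hx h1 h2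
    have h1 : 0 ≤ ∑ x ∈ HS, (if x.1 ∣ q + 1 then max (u q - x.2) 0 else 0) :=
      Finset.sum_nonneg fun x _ => by split_ifs; exacts [le_max_right _ _, le_rfl]
    have h2 : 0 ≤ ∑ x ∈ HS, (if q ∈ B ∧ x.1 ∣ q + 1 then (x.2 : ℤ) else 0) :=
      Finset.sum_nonneg fun x _ => by split_ifs; exacts [Int.natCast_nonneg _, le_rfl]
    by_cases hB : q ∈ B
    · rw [if_pos hB]
      by_cases hex : ∃ x ∈ HS, x.1 ∣ q + 1
      · obtain ⟨x, hx, hx1⟩ := hex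
        have h3 : max (u q - x.2) 0 ≤
            ∑ x ∈ HS, (if x.1 ∣ q + 1 then max (u q - x.2) 0 else 0) := by
          have := Finset.single_le_sum (f := fun x : ℕ × ℕ =>
            (if x.1 ∣ q + 1 then max (u q - x.2) 0 else 0)) (fun x _ => by
              show (0 : ℤ) ≤ if x.1 ∣ q + 1 then max (u q - x.2) 0 else 0
              split_ifs; exacts [le_max_right _ _, le_rfl]) hx
          simp only [if_pos hx1] at this
          exact this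
        have h4 : (x.2 : ℤ) ≤ ∑ x ∈ HS, (if q ∈ B ∧ x.1 ∣ q + 1 then (x.2 : ℤ) else 0) := by
          have := Finset.single_le_sum (f := fun x : ℕ × ℕ =>
            (if q ∈ B ∧ x.1 ∣ q + 1 then (x.2 : ℤ) else 0)) (fun x _ => by
              show (0 : ℤ) ≤ if q ∈ B ∧ x.1 ∣ q + 1 then (x.2 : ℤ) else 0
              split_ifs; exacts [Int.natCast_nonneg _, le_rfl]) hx
          simp only [if_pos (show q ∈ B ∧ x.1 ∣ q + 1 from ⟨hB, hx1⟩)] at this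
          exact this
        have h5 := le_max_left (u q - (x.2 : ℤ)) 0
        linarith
      · push Not at hex
        have h3 : ∑ x ∈ HS, (if x.1 ∣ q + 1 ∧ fs x.1 q then u q else 0) = 0 :=
          Finset.sum_eq_zero fun x hx => if_neg fun h => hex x hx h.1
        linarith
    · rw [if_neg hB]
      linarith
  have h1 : ∑ q ∈ B, u q = ∑ q ∈ X, (if q ∈ B then u q else 0) := by
    rw [← Finset.sum_filter]
    congr 1
    ext q
    rw [mem_filter]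
    exact ⟨fun h => ⟨hBX h, h⟩, fun h => h.2⟩
  rw [h1]
  refine (Finset.sum_le_sum key).trans ?_
  rw [Finset.sum_add_distrib, Finset.sum_comm]
  refine add_le_add le_rfl (Finset.sum_le_sum fun x hx => ?_)
  rw [Finset.sum_sub_distrib, Finset.sum_add_distrib, ← Finset.sum_filter, ← Finset.sum_filter,
    ← Finset.sum_filter]
  have h2 : ∑ q ∈ X.filter (fun q => q ∈ B ∧ x.1 ∣ q + 1), (x.2 : ℤ) ≤ 3 * (x.2 : ℤ) := by
    rw [Finset.sum_const, nsmul_eq_mul]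
    have h3 : (X.filter (fun q => q ∈ B ∧ x.1 ∣ q + 1)).card ≤ 3 := by
      refine (Finset.card_le_card fun q hq => ?_).trans (hH x hx)
      rw [mem_filter] at hq ⊢
      exact hq.2
    have h4 : (((X.filter (fun q => q ∈ B ∧ x.1 ∣ q + 1)).card : ℕ) : ℤ) ≤ 3 := by exact_mod_cast h3
    exact mul_le_mul_of_nonneg_right h4 (Int.natCast_nonneg _)
  linarith

theorem comb (A X : Finset ℕ) (hW : ∀ q, 0 ≤ W q) (hv : ∀ r q, 0 ≤ v r q)
    (hv0 : ∀ r q, ¬ r ∣ q + 1 → v r q = 0)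
    (hinj : ∀ x ∈ FS, ∀ y ∈ FS, x.1 = y.1 → x = y)
    (hA : ∀ q ∈ A, q ∈ X ∨ ∃ x ∈ FS, x.1 = q) (hX : ∀ x ∈ FS, x.1 ∉ X)
    (hF : ∀ x ∈ FS, x.1 ∈ A → ∑ q ∈ A, v x.1 q ≤ 1)
    (hE : ∀ x ∈ ES, ∑ q ∈ A, v x.1 q ≤ 3)
    (fs : ℕ → ℕ → Prop) [∀ t q, Decidable (fs t q)]
    (hfs : ∀ q, ∀ x ∈ HS, ∀ y ∈ HS, fs x.1 q → fs y.1 q → x = y)
    (hH : ∀ x ∈ HS, (A.filter fun q => x.1 ∣ q + 1).card ≤ 3)
    (hdom : ∀ x ∈ FS, ∑ q ∈ X.filter (fun q => x.1 ∣ q + 1), W q + hZ FS ES v x.1 +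
      x.2 * ∑ y ∈ FS, v x.1 y.1 ≤ W x.1 + x.2) :
    ∑ q ∈ A, W q + ∑ x ∈ FS, hZ FS ES v x.1 ≤ ∑ x ∈ FS, (W x.1 + x.2) + 3 * ∑ x ∈ ES, (x.2 : ℤ) +
      ∑ q ∈ X, uZ FS ES W v q + ∑ x ∈ HS, (3 * (x.2 : ℤ) +
        ∑ q ∈ X.filter (fun q => x.1 ∣ q + 1), max (uZ FS ES W v q - x.2) 0 -
        ∑ q ∈ X.filter (fun q => x.1 ∣ q + 1 ∧ fs x.1 q), uZ FS ES W v q) := by
  classical
  obtain ⟨S, hS⟩ : ∃ S, S = FS.filter fun x => x.1 ∈ A := ⟨_, rfl⟩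
  obtain ⟨O, hO⟩ : ∃ O, O = FS.filter fun x => x.1 ∉ A := ⟨_, rfl⟩
  obtain ⟨B, hB⟩ : ∃ B, B = A.filter fun q => q ∈ X := ⟨_, rfl⟩
  have hSO : ∀ f : ℕ × ℕ → ℤ, ∑ x ∈ FS, f x = ∑ x ∈ S, f x + ∑ x ∈ O, f x := by
    intro f
    rw [hS, hO]
    exact (Finset.sum_filter_add_sum_filter_not FS _ f).symm
  have hAB : ∀ f : ℕ → ℤ, ∑ q ∈ A, f q = ∑ q ∈ B, f q + ∑ x ∈ S, f x.1 := by
    intro f
    rw [← Finset.sum_filter_add_sum_filter_not A (fun q => q ∈ X) f, ← hB]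
    congr 1
    have h1 : A.filter (fun q => ¬ q ∈ X) = S.image Prod.fst := by
      ext q
      rw [mem_filter, mem_image]
      constructor
      · rintro ⟨h1, h2⟩
        rcases hA q h1 with h3 | ⟨x, hx, rfl⟩
        · exact absurd h3 h2
        · exact ⟨x, by rw [hS, mem_filter]; exact ⟨hx, h1⟩, rfl⟩
      · rintro ⟨x, hx, rfl⟩
        rw [hS, mem_filter] at hx
        exact ⟨hx.2, hX x hx.1⟩
    rw [h1, Finset.sum_image]
    intro x hx y hy hxy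
    rw [hS] at hx hy
    exact hinj x (mem_filter.1 hx).1 y (mem_filter.1 hy).1 hxy
  have hBA : B ⊆ A := by rw [hB]; exact Finset.filter_subset _ _
  have hBX : B ⊆ X := by
    intro q hq
    rw [hB, mem_filter] at hq
    exact hq.2
  have hunn : ∀ q, 0 ≤ uZ FS ES W v q := fun q => le_max_right _ _
  -- step 2
  have h2 : ∀ q ∈ B, W q ≤ uZ FS ES W v q + (∑ x ∈ S, (x.2 : ℤ) * v x.1 q +
      ∑ x ∈ ES, (x.2 : ℤ) * v x.1 q) + ∑ x ∈ O, (if x.1 ∣ q + 1 then W q else 0) := by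
    intro q _
    have hSn : 0 ≤ ∑ x ∈ S, (x.2 : ℤ) * v x.1 q :=
      Finset.sum_nonneg fun x _ => mul_nonneg (Int.natCast_nonneg _) (hv _ _)
    have hEn : 0 ≤ ∑ x ∈ ES, (x.2 : ℤ) * v x.1 q :=
      Finset.sum_nonneg fun x _ => mul_nonneg (Int.natCast_nonneg _) (hv _ _)
    have hOn : ∀ x ∈ O, 0 ≤ (if x.1 ∣ q + 1 then W q else 0) := fun x _ => by
      split_ifs; exacts [hW q, le_rfl]
    by_cases hex : ∃ x ∈ O, x.1 ∣ q + 1
    · obtain ⟨x, hx, hx1⟩ := hex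
      have h3 := Finset.single_le_sum hOn hx
      rw [if_pos hx1] at h3
      have := hunn q
      linarith
    · push Not at hex
      have h3 : ∑ x ∈ O, (x.2 : ℤ) * v x.1 q = 0 :=
        Finset.sum_eq_zero fun x hx => by rw [hv0 _ _ (hex x hx), mul_zero]
      have h4 : hZ FS ES v q = ∑ x ∈ S, (x.2 : ℤ) * v x.1 q + ∑ x ∈ ES, (x.2 : ℤ) * v x.1 q := by
        unfold hZ
        rw [hSO, h3, add_zero]
      have h5 := le_max_left (W q - hZ FS ES v q) 0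
      have h6 := Finset.sum_nonneg hOn
      unfold uZ
      linarith
  have h3 : ∑ q ∈ B, ∑ x ∈ O, (if x.1 ∣ q + 1 then W q else 0) ≤
      ∑ x ∈ O, ∑ q ∈ X.filter (fun q => x.1 ∣ q + 1), W q := by
    rw [Finset.sum_comm]
    refine Finset.sum_le_sum fun x _ => ?_
    rw [← Finset.sum_filter]
    refine Finset.sum_le_sum_of_subset_of_nonneg (fun q hq => ?_) fun q _ _ => hW q
    rw [mem_filter] at hq ⊢
    exact ⟨hBX hq.1, hq.2⟩
  -- step 4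
  have h4 : ∑ q ∈ B, ∑ x ∈ S, (x.2 : ℤ) * v x.1 q ≤
      ∑ x ∈ S, (x.2 : ℤ) * (1 - ∑ y ∈ S, v x.1 y.1) := by
    rw [Finset.sum_comm]
    refine Finset.sum_le_sum fun x hx => ?_
    rw [← Finset.mul_sum]
    refine mul_le_mul_of_nonneg_left ?_ (Int.natCast_nonneg _)
    rw [hS] at hx
    have h5 := hF x (mem_filter.1 hx).1 (mem_filter.1 hx).2
    rw [hAB] at h5
    linarith
  have h5 : ∑ q ∈ B, ∑ x ∈ ES, (x.2 : ℤ) * v x.1 q ≤
      ∑ x ∈ ES, (x.2 : ℤ) * (3 - ∑ y ∈ S, v x.1 y.1) := by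
    rw [Finset.sum_comm]
    refine Finset.sum_le_sum fun x hx => ?_
    rw [← Finset.mul_sum]
    refine mul_le_mul_of_nonneg_left ?_ (Int.natCast_nonneg _)
    have h5 := hE x hx
    rw [hAB] at h5
    linarith
  have h6 := class_bound HS X B (uZ FS ES W v) hunn hBX fs hfs fun x hx =>
    (Finset.card_le_card (Finset.filter_subset_filter _ hBA)).trans (hH x hx)
  have h7 := Finset.sum_le_sum h2
  rw [Finset.sum_add_distrib, Finset.sum_add_distrib, Finset.sum_add_distrib] at h7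
  -- dominance
  have h8 : ∑ x ∈ O, (∑ q ∈ X.filter (fun q => x.1 ∣ q + 1), W q + hZ FS ES v x.1 +
      x.2 * ∑ y ∈ FS, v x.1 y.1) ≤ ∑ x ∈ O, (W x.1 + x.2) := by
    refine Finset.sum_le_sum fun x hx => ?_
    rw [hO] at hx
    exact hdom x (mem_filter.1 hx).1
  rw [Finset.sum_add_distrib, Finset.sum_add_distrib] at h8
  have h9 : ∑ x ∈ O, (x.2 : ℤ) * ∑ y ∈ S, v x.1 y.1 ≤ ∑ x ∈ O, (x.2 : ℤ) * ∑ y ∈ FS, v x.1 y.1 := by
    refine Finset.sum_le_sum fun x _ => mul_le_mul_of_nonneg_left ?_ (Int.natCast_nonneg _)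
    refine Finset.sum_le_sum_of_subset_of_nonneg ?_ fun y _ _ => hv _ _
    rw [hS]
    exact Finset.filter_subset _ _
  have h10 : ∑ y ∈ S, hZ FS ES v y.1 = ∑ x ∈ S, (x.2 : ℤ) * ∑ y ∈ S, v x.1 y.1 +
      ∑ x ∈ O, (x.2 : ℤ) * ∑ y ∈ S, v x.1 y.1 + ∑ x ∈ ES, (x.2 : ℤ) * ∑ y ∈ S, v x.1 y.1 := by
    unfold hZ
    rw [Finset.sum_add_distrib, Finset.sum_comm, Finset.sum_comm (s := S) (t := ES), hSO]
    simp only [Finset.mul_sum]
  have h11 : ∑ x ∈ S, (x.2 : ℤ) * (1 - ∑ y ∈ S, v x.1 y.1) =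
      ∑ x ∈ S, (x.2 : ℤ) - ∑ x ∈ S, (x.2 : ℤ) * ∑ y ∈ S, v x.1 y.1 := by
    rw [← Finset.sum_sub_distrib]
    exact Finset.sum_congr rfl fun x _ => by ring
  have h12 : ∑ x ∈ ES, (x.2 : ℤ) * (3 - ∑ y ∈ S, v x.1 y.1) =
      3 * ∑ x ∈ ES, (x.2 : ℤ) - ∑ x ∈ ES, (x.2 : ℤ) * ∑ y ∈ S, v x.1 y.1 := by
    rw [Finset.mul_sum, ← Finset.sum_sub_distrib]
    exact Finset.sum_congr rfl fun x _ => by ring
  rw [hAB, hSO (fun x => hZ FS ES v x.1), hSO (fun x => W x.1 + (x.2 : ℤ)),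
    Finset.sum_add_distrib (s := S)]
  rw [Finset.sum_add_distrib (s := O)] at h8 ⊢
  linarith

end Pool.Agent.EPM
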