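import Mathlib

/-!
# MP_bed364_nt, many primes: the computable functions

All weights are scaled by `SZ = 10^12`. `FL`: list of the pairs (prime `1 mod 6`, price), `PL`: `FL` and possibly `(5, price)`,
`HL`: list of the pairs (prime `5 mod 6`, threshold).
-/

set_option autoImplicit false

namespace Pool.Agent.EPM

/-- the scale -/
def SZ : ℕ := 1000000000000

/-- the product of the primes up to `509` -/
def MQ : ℕ :=
  31964081287196888554640742530273949712805599189441373009521636182430667982828077742788853029807931798207106885718293402541861369758591699412090677759187666930105491469725350718941073722934985042092154205321144030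

/-- a superset of the primes -/
def isQ (q : ℕ) : Bool :=
  cond (Nat.ble q 528) (or (Nat.ble q 19) (Nat.beq (Nat.gcd q 9699690) 1)) (Nat.beq (Nat.gcd q MQ) 1)

/-- the cost of `q`: `1`, or a lower bound of the exponent of `2` in `q + 1` -/
def cst (b : Bool) (q : ℕ) : ℕ := cond b (Nat.log2 (Nat.gcd (Nat.succ q) 64)) 1

/-- the weight of `q` -/
def WW (b : Bool) (La q : ℕ) : ℕ :=
  Nat.sub (Nat.succ (Nat.div (Nat.mul SZ (Nat.sub (Nat.mul 6 (Nat.mul q q)) (Nat.add (Nat.mul 9 q) 4)))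
    (Nat.mul 6 (Nat.mul q (Nat.mul q q))))) (Nat.mul La (cst b q))

/-- `[r ∣ q + 1] + [r ^ 2 ∣ q + 1]` -/
def vv (r q : ℕ) : ℕ :=
  cond (Nat.beq (Nat.mod (Nat.succ q) r) 0) (cond (Nat.beq (Nat.mod (Nat.succ q) (Nat.mul r r)) 0) 2 1) 0

/-- sum of a function over a list -/
def ls (f : ℕ × ℕ → ℕ) (L : List (ℕ × ℕ)) : ℕ := List.rec 0 (fun x _ ih => Nat.add (f x) ih) L

/-- the price of the hits of `q` -/
def hh (L : List (ℕ × ℕ)) (q : ℕ) : ℕ := ls (fun x => Nat.mul x.2 (vv x.1 q)) L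

/-- membership -/
def mem (L : List (ℕ × ℕ)) (q : ℕ) : Bool := List.rec false (fun x _ ih => or (Nat.beq x.1 q) ih) L

/-- the candidates outside of `FL` -/
def isX (FL : List (ℕ × ℕ)) (q : ℕ) : Bool :=
  and (isQ q) (not (and (Nat.ble q 1000) (mem FL q)))

/-- sum of `f (s + i)` for `i < l` (if `l ≤ 2 ^ d`) -/
def rs (f : ℕ → ℕ) (d : ℕ) : ℕ → ℕ → ℕ :=
  Nat.rec (fun s l => cond (Nat.beq l 0) 0 (f s))
    (fun _ ih s l => Nat.add (ih s (Nat.div l 2))
      (ih (Nat.add s (Nat.div l 2)) (Nat.sub l (Nat.div l 2)))) d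

/-- the reduced weight -/
def uu (b : Bool) (La : ℕ) (PL : List (ℕ × ℕ)) (q : ℕ) : ℕ := Nat.sub (WW b La q) (hh PL q)

/-- a weight at a candidate -/
def fX (FL : List (ℕ × ℕ)) (f : ℕ → ℕ) (q : ℕ) : ℕ := cond (isX FL q) (f q) 0

/-- the weight of a candidate, restricted to the numbers of positive weight -/
def fW (b : Bool) (La : ℕ) (FL : List (ℕ × ℕ)) (f : ℕ → ℕ) (q : ℕ) : ℕ :=
  cond (Nat.beq (WW b La q) 0) 0 (fX FL f q)

/-- total reduced weight of the candidates -/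
def UU (b : Bool) (La : ℕ) (FL PL : List (ℕ × ℕ)) : ℕ :=
  rs (fun k => fW b La FL (uu b La PL) (Nat.succ (Nat.mul 6 k))) 15 1 32767

/-- the sum over the candidates `q` with `r ∣ q + 1` (`a = 2` for `r = 1 mod 6`, `a = 4` for `r = 5 mod 6`) -/
def MM (b : Bool) (La : ℕ) (FL : List (ℕ × ℕ)) (f : ℕ → ℕ) (r a : ℕ) : ℕ :=
  rs (fun i => fW b La FL f (Nat.pred (Nat.mul r (Nat.add (Nat.mul 6 i) a)))) 13 0 (Nat.succ (Nat.div 32768 r))

/-- no element of the list before `t` divides `q + 1` -/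
def fst (HL : List (ℕ × ℕ)) (t q : ℕ) : Bool :=
  List.rec false (fun x _ ih => cond (Nat.beq x.1 t) true
    (cond (Nat.beq (Nat.mod (Nat.succ q) x.1) 0) false ih)) HL

/-- the gain of a prime with exponent `3` or `4`, and of a prime `= 1 mod 3` -/
def gA (p : ℕ) : ℕ := Nat.succ (Nat.div (Nat.mul SZ (Nat.succ p)) (Nat.mul p (Nat.mul p p)))

/-- the gain of a prime `= 2 mod 3` with exponent `≥ 5` -/
def gB (p : ℕ) : ℕ := Nat.succ (Nat.div SZ (Nat.mul (Nat.mul p (Nat.mul p p)) (Nat.sub p 1)))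

/-- the difference -/
def gD (p : ℕ) : ℕ := Nat.sub (gA p) (gB p)

/-- the excess of `t` -/
def exc (b : Bool) (La : ℕ) (FL PL HL : List (ℕ × ℕ)) (x : ℕ × ℕ) : ℕ :=
  Nat.sub (Nat.add (Nat.add (gD x.1) (Nat.mul 3 x.2)) (MM b La FL (fun q => Nat.sub (uu b La PL q) x.2) x.1 4))
    (MM b La FL (fun q => cond (fst HL x.1 q) (uu b La PL q) 0) x.1 4)

/-- the dominance condition for `x = (r, price)` -/
def dom (b : Bool) (La : ℕ) (FL PL : List (ℕ × ℕ)) (x : ℕ × ℕ) : Bool :=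
  Nat.ble (Nat.add (MM b La FL (WW b La) x.1 2) (Nat.add (hh PL x.1)
    (Nat.mul x.2 (ls (fun y => vv x.1 y.1) FL)))) (Nat.add (WW b La x.1) x.2)

end Pool.Agent.EPM
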