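import Pool.Agent.Lib_MP_bed364_mp.DmA0

/-!
# MP_bed364_nt, many primes: data A0
-/

set_option autoImplicit false
set_option maxRecDepth 100000

namespace Pool.Agent.EPM

theorem datA0 : Dat false 7300000 FA0 EA0 GA0 where
  La_ge := by norm_num
  nodF := by decide +kernel
  nodH := by decide +kernel
  nodE := by decide +kernel
  modF := by decide +kernel
  modH := by decide +kernel
  dm := dmA0

/-- the values of the chunks -/
def cvA0 (j : ℕ) : ℕ := [97088382704, 17680598675, 8523042046, 4941666692, 3532573681, 2344700454, 1556080672, 1136091741, 693545657, 362232324, 132651736, 2305691, 0, 0, 0, 0].getD j 0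

theorem chA0 : ∀ j < 16, chk false 7300000 FA0 (FA0 ++ EA0) j ≤ cvA0 j := by
  intro j hj
  interval_cases j
  · exact chA0_0
  · exact chA0_1
  · exact chA0_2
  · exact chA0_3
  · exact chA0_4
  · exact chA0_5
  · exact chA0_6
  · exact chA0_7
  · exact chA0_8
  · exact chA0_9
  · exact chA0_10
  · exact chA0_11
  · exact chA0_12
  · exact chA0_13
  · exact chA0_14
  · exact chA0_15

theorem exA0 : ls (exc false 7300000 FA0 (FA0 ++ EA0) GA0) GA0 ≤ 0 := by
  refine le_trans (ls_le_cons _ _ _ exA0_0
    (ls_le_cons _ _ _ exA0_1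
    (ls_le_cons _ _ _ exA0_2
    (ls_le_cons _ _ _ exA0_3
    (ls_le_cons _ _ _ exA0_4
    (ls_le_cons _ _ _ exA0_5
    (ls_le_cons _ _ _ exA0_6
    (ls_le_cons _ _ _ exA0_7
    (ls_le_nil _))))))))) ?_
  decide +kernel

theorem totA0 : Nat.ble (tot false 7300000 FA0 EA0 GA0) 646752206389 = true :=
  tot_le (T1 := 508758334316) (T2 := 137993872073) cvA0 (by decide +kernel) chA0 (by decide +kernel) exA0 (by decide +kernel)

theorem hhA0 : Nat.ble 22158500295 (ls (fun x => hh (FA0 ++ EA0) x.1) FA0) = true := by decide +kernel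

theorem gdA0 : Nat.ble 16873778835 (ls (fun x => gD x.1) GA0) = true := by decide +kernel

end Pool.Agent.EPM
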