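import Pool.Agent.Lib_MP_bed364_mp.DmA1

/-!
# MP_bed364_nt, many primes: data A1
-/

set_option autoImplicit false
set_option maxRecDepth 100000

namespace Pool.Agent.EPM

theorem datA1 : Dat true 5150000 FA1 EA1 GA1 where
  La_ge := by norm_num
  nodF := by decide +kernel
  nodH := by decide +kernel
  nodE := by decide +kernel
  modF := by decide +kernel
  modH := by decide +kernel
  dm := dmA1

/-- the values of the chunks -/
def cvA1 (j : ℕ) : ℕ := [96181189412, 16820016275, 7774565909, 4176391656, 2899728281, 1891889822, 1250695511, 937977361, 656984198, 478724301, 363129638, 292329911, 193236574, 119698377, 58687534, 17348673].getD j 0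

theorem chA1 : ∀ j < 16, chk true 5150000 FA1 (FA1 ++ EA1) j ≤ cvA1 j := by
  intro j hj
  interval_cases j
  · exact chA1_0
  · exact chA1_1
  · exact chA1_2
  · exact chA1_3
  · exact chA1_4
  · exact chA1_5
  · exact chA1_6
  · exact chA1_7
  · exact chA1_8
  · exact chA1_9
  · exact chA1_10
  · exact chA1_11
  · exact chA1_12
  · exact chA1_13
  · exact chA1_14
  · exact chA1_15

theorem exA1 : ls (exc true 5150000 FA1 (FA1 ++ EA1) GA1) GA1 ≤ 174922425 := by
  refine le_trans (ls_le_cons _ _ _ exA1_0
    (ls_le_cons _ _ _ exA1_1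
    (ls_le_cons _ _ _ exA1_2
    (ls_le_cons _ _ _ exA1_3
    (ls_le_cons _ _ _ exA1_4
    (ls_le_cons _ _ _ exA1_5
    (ls_le_cons _ _ _ exA1_6
    (ls_le_cons _ _ _ exA1_7
    (ls_le_nil _))))))))) ?_
  decide +kernel

theorem totA1 : Nat.ble (tot true 5150000 FA1 EA1 GA1) 642633174924 = true :=
  tot_le (T1 := 508345659066) (T2 := 134112593433) cvA1 (by decide +kernel) chA1 (by decide +kernel) exA1 (by decide +kernel)

theorem hhA1 : Nat.ble 22034100295 (ls (fun x => hh (FA1 ++ EA1) x.1) FA1) = true := by decide +kernel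

theorem gdA1 : Nat.ble 16873778835 (ls (fun x => gD x.1) GA1) = true := by decide +kernel

end Pool.Agent.EPM
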