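import Pool.Agent.Lib_MP_bed364_mp.DmB0

/-!
# MP_bed364_nt, many primes: data B0
-/

set_option autoImplicit false
set_option maxRecDepth 100000

namespace Pool.Agent.EPM

theorem datB0 : Dat false 7300000 FB0 EB0 GB0 where
  La_ge := by norm_num
  nodF := by decide +kernel
  nodH := by decide +kernel
  nodE := by decide +kernel
  modF := by decide +kernel
  modH := by decide +kernel
  dm := dmB0

/-- the values of the chunks -/
def cvB0 (j : ℕ) : ℕ := [74876581393, 13783641166, 6735169359, 3902278810, 2735178923, 1782011369, 1208926465, 893547633, 511072682, 281040275, 103590085, 1850269, 0, 0, 0, 0].getD j 0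

theorem chB0 : ∀ j < 16, chk false 7300000 FB0 (FB0 ++ EB0) j ≤ cvB0 j := by
  intro j hj
  interval_cases j
  · exact chB0_0
  · exact chB0_1
  · exact chB0_2
  · exact chB0_3
  · exact chB0_4
  · exact chB0_5
  · exact chB0_6
  · exact chB0_7
  · exact chB0_8
  · exact chB0_9
  · exact chB0_10
  · exact chB0_11
  · exact chB0_12
  · exact chB0_13
  · exact chB0_14
  · exact chB0_15

theorem exB0 : ls (exc false 7300000 FB0 (FB0 ++ EB0) GB0) GB0 ≤ 2588593916 := by
  refine le_trans (ls_le_cons _ _ _ exB0_0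
    (ls_le_cons _ _ _ exB0_1
    (ls_le_cons _ _ _ exB0_2
    (ls_le_cons _ _ _ exB0_3
    (ls_le_cons _ _ _ exB0_4
    (ls_le_cons _ _ _ exB0_5
    (ls_le_cons _ _ _ exB0_6
    (ls_le_cons _ _ _ exB0_7
    (ls_le_nil _))))))))) ?_
  decide +kernel

theorem totB0 : Nat.ble (tot false 7300000 FB0 EB0 GB0) 607935396937 = true :=
  tot_le (T1 := 498531914592) (T2 := 106814888429) cvB0 (by decide +kernel) chB0 (by decide +kernel) exB0 (by decide +kernel)

theorem hhB0 : Nat.ble 30854523060 (ls (fun x => hh (FB0 ++ EB0) x.1) FB0) = true := by decide +kernel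

theorem gdB0 : Nat.ble 16873778835 (ls (fun x => gD x.1) GB0) = true := by decide +kernel

end Pool.Agent.EPM
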