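import Pool.Agent.Lib_MP_bed364_mp.DmB1

/-!
# MP_bed364_nt, many primes: data B1
-/

set_option autoImplicit false
set_option maxRecDepth 100000

namespace Pool.Agent.EPM

theorem datB1 : Dat true 5150000 FB1 EB1 GB1 where
  La_ge := by norm_num
  nodF := by decide +kernel
  nodH := by decide +kernel
  nodE := by decide +kernel
  modF := by decide +kernel
  modH := by decide +kernel
  dm := dmB1

/-- the values of the chunks -/
def cvB1 (j : ℕ) : ℕ := [74242518097, 13061576187, 6059929405, 3321916687, 2242271577, 1438995696, 977815708, 757100785, 513453671, 370283587, 287753884, 220871727, 141174333, 81150383, 45434880, 12779657].getD j 0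

theorem chB1 : ∀ j < 16, chk true 5150000 FB1 (FB1 ++ EB1) j ≤ cvB1 j := by
  intro j hj
  interval_cases j
  · exact chB1_0
  · exact chB1_1
  · exact chB1_2
  · exact chB1_3
  · exact chB1_4
  · exact chB1_5
  · exact chB1_6
  · exact chB1_7
  · exact chB1_8
  · exact chB1_9
  · exact chB1_10
  · exact chB1_11
  · exact chB1_12
  · exact chB1_13
  · exact chB1_14
  · exact chB1_15

theorem exB1 : ls (exc true 5150000 FB1 (FB1 ++ EB1) GB1) GB1 ≤ 2844626241 := by
  refine le_trans (ls_le_cons _ _ _ exB1_0
    (ls_le_cons _ _ _ exB1_1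
    (ls_le_cons _ _ _ exB1_2
    (ls_le_cons _ _ _ exB1_3
    (ls_le_cons _ _ _ exB1_4
    (ls_le_cons _ _ _ exB1_5
    (ls_le_cons _ _ _ exB1_6
    (ls_le_cons _ _ _ exB1_7
    (ls_le_nil _))))))))) ?_
  decide +kernel

theorem totB1 : Nat.ble (tot true 5150000 FB1 EB1 GB1) 604763020372 = true :=
  tot_le (T1 := 498143367867) (T2 := 103775026264) cvB1 (by decide +kernel) chB1 (by decide +kernel) exB1 (by decide +kernel)

theorem hhB1 : Nat.ble 30751798060 (ls (fun x => hh (FB1 ++ EB1) x.1) FB1) = true := by decide +kernel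

theorem gdB1 : Nat.ble 16873778835 (ls (fun x => gD x.1) GB1) = true := by decide +kernel

end Pool.Agent.EPM
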