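import Pool.Agent.Lib_MP_bed364_mp.ChBase

/-!
# MP_bed364_nt, many primes: the base constant
-/

set_option autoImplicit false
set_option maxRecDepth 100000

namespace Pool.Agent.EPM

/-- the values of the chunks -/
def cvA (j : ℕ) : ℕ := [36812046098, 2097102, 647351, 318879, 187474, 120910, 85205, 65146, 49567, 37510, 31253, 26589, 22332, 18447, 16261, 14895].getD j 0

theorem cA : ∀ j < 16, chA j ≤ cvA j := by
  intro j hj
  interval_cases j
  · exact cA_0
  · exact cA_1
  · exact cA_2
  · exact cA_3
  · exact cA_4
  · exact cA_5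
  · exact cA_6
  · exact cA_7
  · exact cA_8
  · exact cA_9
  · exact cA_10
  · exact cA_11
  · exact cA_12
  · exact cA_13
  · exact cA_14
  · exact cA_15

theorem BA5_val : Nat.ble BA5 67044098787 = true := by decide +kernel

theorem cvA_sum : ∑ j ∈ Finset.range 16, cvA j ≤ 36815785019 := by decide +kernel

theorem BA_le : Nat.ble (Nat.add BA1 BA5) 103859883806 = true := by
  rw [ble_iff]
  exact (Nat.add_le_add ((BA1_le cvA cA).trans cvA_sum) (ble_iff.1 BA5_val)).trans (by norm_num)

theorem gD5 : gD 5 = 46000000000 := by decide +kernel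

end Pool.Agent.EPM
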