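import Pool.Agent.Lib_MP_bed364_mp.ExA1

/-!
# MP_bed364_nt, many primes: the dominance conditions of the data set A1
-/

set_option autoImplicit false
set_option maxRecDepth 100000

namespace Pool.Agent.EPM

theorem dmA1_0 : ∀ x ∈ FA1.take 1, dom true 5150000 FA1 (FA1 ++ EA1) x = true := by decide +kernel

theorem dmA1_1 : ∀ x ∈ (FA1.drop 1).take 2, dom true 5150000 FA1 (FA1 ++ EA1) x = true := by decide +kernel

theorem dmA1_2 : ∀ x ∈ ((FA1.drop 1).drop 2).take 6, dom true 5150000 FA1 (FA1 ++ EA1) x = true := by decide +kernel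

theorem dmA1_3 : ∀ x ∈ ((FA1.drop 1).drop 2).drop 6, dom true 5150000 FA1 (FA1 ++ EA1) x = true := by decide +kernel

theorem dmA1 : ∀ x ∈ FA1, dom true 5150000 FA1 (FA1 ++ EA1) x = true :=
  forall_split 1 dmA1_0 (forall_split 2 dmA1_1 (forall_split 6 dmA1_2 dmA1_3))

end Pool.Agent.EPM
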