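import Pool.Agent.Lib_MP_bed364_mp.ExB0

/-!
# MP_bed364_nt, many primes: the dominance conditions of the data set B0
-/

set_option autoImplicit false
set_option maxRecDepth 100000

namespace Pool.Agent.EPM

theorem dmB0_0 : ∀ x ∈ FB0.take 1, dom false 7300000 FB0 (FB0 ++ EB0) x = true := by decide +kernel

theorem dmB0_1 : ∀ x ∈ (FB0.drop 1).take 2, dom false 7300000 FB0 (FB0 ++ EB0) x = true := by decide +kernel

theorem dmB0_2 : ∀ x ∈ ((FB0.drop 1).drop 2).take 6, dom false 7300000 FB0 (FB0 ++ EB0) x = true := by decide +kernel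

theorem dmB0_3 : ∀ x ∈ ((FB0.drop 1).drop 2).drop 6, dom false 7300000 FB0 (FB0 ++ EB0) x = true := by decide +kernel

theorem dmB0 : ∀ x ∈ FB0, dom false 7300000 FB0 (FB0 ++ EB0) x = true :=
  forall_split 1 dmB0_0 (forall_split 2 dmB0_1 (forall_split 6 dmB0_2 dmB0_3))

end Pool.Agent.EPM
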