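import Pool.Agent.Lib_MP_bed364_mp.ExB1

/-!
# MP_bed364_nt, many primes: the dominance conditions of the data set B1
-/

set_option autoImplicit false
set_option maxRecDepth 100000

namespace Pool.Agent.EPM

theorem dmB1_0 : ∀ x ∈ FB1.take 1, dom true 5150000 FB1 (FB1 ++ EB1) x = true := by decide +kernel

theorem dmB1_1 : ∀ x ∈ (FB1.drop 1).take 2, dom true 5150000 FB1 (FB1 ++ EB1) x = true := by decide +kernel

theorem dmB1_2 : ∀ x ∈ ((FB1.drop 1).drop 2).take 6, dom true 5150000 FB1 (FB1 ++ EB1) x = true := by decide +kernel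

theorem dmB1_3 : ∀ x ∈ ((FB1.drop 1).drop 2).drop 6, dom true 5150000 FB1 (FB1 ++ EB1) x = true := by decide +kernel

theorem dmB1 : ∀ x ∈ FB1, dom true 5150000 FB1 (FB1 ++ EB1) x = true :=
  forall_split 1 dmB1_0 (forall_split 2 dmB1_1 (forall_split 6 dmB1_2 dmB1_3))

end Pool.Agent.EPM
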