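import Pool.Agent.Lib_MP_bed364_mp.ChA0b

/-!
# MP_bed364_nt, many primes: the excesses of the data set A0
-/

set_option autoImplicit false
set_option maxRecDepth 100000

namespace Pool.Agent.EPM

theorem exA0_0 : exc false 7300000 FA0 (FA0 ++ EA0) GA0 (11, 762818033) ≤ 0 :=
  ble_iff.1 (by decide +kernel)

theorem exA0_1 : exc false 7300000 FA0 (FA0 ++ EA0) GA0 (17, 580761741) ≤ 0 :=
  ble_iff.1 (by decide +kernel)

theorem exA0_2 : exc false 7300000 FA0 (FA0 ++ EA0) GA0 (23, 455127457) ≤ 0 :=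
  ble_iff.1 (by decide +kernel)

theorem exA0_3 : exc false 7300000 FA0 (FA0 ++ EA0) GA0 (29, 246217509) ≤ 0 :=
  ble_iff.1 (by decide +kernel)

theorem exA0_4 : exc false 7300000 FA0 (FA0 ++ EA0) GA0 (41, 269823397) ≤ 0 :=
  ble_iff.1 (by decide +kernel)

theorem exA0_5 : exc false 7300000 FA0 (FA0 ++ EA0) GA0 (71, 142523948) ≤ 0 :=
  ble_iff.1 (by decide +kernel)

theorem exA0_6 : exc false 7300000 FA0 (FA0 ++ EA0) GA0 (83, 293859385) ≤ 0 :=
  ble_iff.1 (by decide +kernel)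

theorem exA0_7 : exc false 7300000 FA0 (FA0 ++ EA0) GA0 (89, 236930023) ≤ 0 :=
  ble_iff.1 (by decide +kernel)

end Pool.Agent.EPM
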