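import Pool.Agent.Lib_MP_bed364_mp.ChA1b

/-!
# MP_bed364_nt, many primes: the excesses of the data set A1
-/

set_option autoImplicit false
set_option maxRecDepth 100000

namespace Pool.Agent.EPM

theorem exA1_0 : exc true 5150000 FA1 (FA1 ++ EA1) GA1 (11, 764968033) ≤ 174922425 :=
  ble_iff.1 (by decide +kernel)

theorem exA1_1 : exc true 5150000 FA1 (FA1 ++ EA1) GA1 (17, 577761741) ≤ 0 :=
  ble_iff.1 (by decide +kernel)

theorem exA1_2 : exc true 5150000 FA1 (FA1 ++ EA1) GA1 (23, 457277457) ≤ 0 :=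
  ble_iff.1 (by decide +kernel)

theorem exA1_3 : exc true 5150000 FA1 (FA1 ++ EA1) GA1 (29, 238067509) ≤ 0 :=
  ble_iff.1 (by decide +kernel)

theorem exA1_4 : exc true 5150000 FA1 (FA1 ++ EA1) GA1 (41, 261673397) ≤ 0 :=
  ble_iff.1 (by decide +kernel)

theorem exA1_5 : exc true 5150000 FA1 (FA1 ++ EA1) GA1 (71, 144588398) ≤ 0 :=
  ble_iff.1 (by decide +kernel)

theorem exA1_6 : exc true 5150000 FA1 (FA1 ++ EA1) GA1 (83, 285709385) ≤ 0 :=
  ble_iff.1 (by decide +kernel)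

theorem exA1_7 : exc true 5150000 FA1 (FA1 ++ EA1) GA1 (89, 239080023) ≤ 0 :=
  ble_iff.1 (by decide +kernel)

end Pool.Agent.EPM
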