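import Pool.Agent.Lib_MP_bed364_mp.ChB0b

/-!
# MP_bed364_nt, many primes: the excesses of the data set B0
-/

set_option autoImplicit false
set_option maxRecDepth 100000

namespace Pool.Agent.EPM

theorem exB0_0 : exc false 7300000 FB0 (FB0 ++ EB0) GB0 (11, 762818033) ≤ 2325862067 :=
  ble_iff.1 (by decide +kernel)

theorem exB0_1 : exc false 7300000 FB0 (FB0 ++ EB0) GB0 (17, 547484522) ≤ 0 :=
  ble_iff.1 (by decide +kernel)

theorem exB0_2 : exc false 7300000 FB0 (FB0 ++ EB0) GB0 (23, 402787968) ≤ 0 :=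
  ble_iff.1 (by decide +kernel)

theorem exB0_3 : exc false 7300000 FB0 (FB0 ++ EB0) GB0 (29, 246217509) ≤ 17731295 :=
  ble_iff.1 (by decide +kernel)

theorem exB0_4 : exc false 7300000 FB0 (FB0 ++ EB0) GB0 (41, 269823397) ≤ 70640875 :=
  ble_iff.1 (by decide +kernel)

theorem exB0_5 : exc false 7300000 FB0 (FB0 ++ EB0) GB0 (71, 142523948) ≤ 0 :=
  ble_iff.1 (by decide +kernel)

theorem exB0_6 : exc false 7300000 FB0 (FB0 ++ EB0) GB0 (83, 81285727) ≤ 96661177 :=
  ble_iff.1 (by decide +kernel)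

theorem exB0_7 : exc false 7300000 FB0 (FB0 ++ EB0) GB0 (89, 129714448) ≤ 77698502 :=
  ble_iff.1 (by decide +kernel)

end Pool.Agent.EPM
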