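import Pool.Agent.Lib_MP_bed364_mp.ChB1b

/-!
# MP_bed364_nt, many primes: the excesses of the data set B1
-/

set_option autoImplicit false
set_option maxRecDepth 100000

namespace Pool.Agent.EPM

theorem exB1_0 : exc true 5150000 FB1 (FB1 ++ EB1) GB1 (11, 764968033) ≤ 2540526035 :=
  ble_iff.1 (by decide +kernel)

theorem exB1_1 : exc true 5150000 FB1 (FB1 ++ EB1) GB1 (17, 549634522) ≤ 0 :=
  ble_iff.1 (by decide +kernel)

theorem exB1_2 : exc true 5150000 FB1 (FB1 ++ EB1) GB1 (23, 404937968) ≤ 0 :=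
  ble_iff.1 (by decide +kernel)

theorem exB1_3 : exc true 5150000 FB1 (FB1 ++ EB1) GB1 (29, 238067509) ≤ 17819453 :=
  ble_iff.1 (by decide +kernel)

theorem exB1_4 : exc true 5150000 FB1 (FB1 ++ EB1) GB1 (41, 261673397) ≤ 101428620 :=
  ble_iff.1 (by decide +kernel)

theorem exB1_5 : exc true 5150000 FB1 (FB1 ++ EB1) GB1 (71, 144588398) ≤ 0 :=
  ble_iff.1 (by decide +kernel)

theorem exB1_6 : exc true 5150000 FB1 (FB1 ++ EB1) GB1 (83, 73135727) ≤ 103354871 :=
  ble_iff.1 (by decide +kernel)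

theorem exB1_7 : exc true 5150000 FB1 (FB1 ++ EB1) GB1 (89, 131864448) ≤ 81497262 :=
  ble_iff.1 (by decide +kernel)

end Pool.Agent.EPM
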