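import Pool.Agent.Lib_MP_bed364_mp.DataA0
import Pool.Agent.Lib_MP_bed364_mp.DataB0
import Pool.Agent.Lib_MP_bed364_mp.DataA1
import Pool.Agent.Lib_MP_bed364_mp.DataB1
import Pool.Agent.Lib_MP_bed364_mp.DataBase

/-!
# MP_bed364_nt, many primes: the theorem
-/

set_option autoImplicit false

namespace Pool.Agent.EPM

open Finset Pool.Agent.EP364

theorem rho_tiny {a : ℕ} (ha : 100 ≤ a) : (SZ : ℝ) * rho a ≤ 1 := by
  have h1 := rho_le a (by omega)
  have h2 : sE 2 a ≤ 2 ^ a + ∑ b ∈ Finset.range (a / 2 + 1), 2 ^ b := by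
    unfold sE
    have h3 : a.divisors ⊆ insert a (Finset.range (a / 2 + 1)) := by
      intro b hb
      rw [Nat.mem_divisors] at hb
      rw [mem_insert, mem_range]
      obtain ⟨c, hc⟩ := hb.1
      rcases Nat.lt_or_ge c 2 with h2 | h2
      · left
        interval_cases c
        · omega
        · omega
      · right
        have h3 : b * 2 ≤ b * c := Nat.mul_le_mul_left b h2
        omega
    refine (Finset.sum_le_sum_of_subset h3).trans ?_
    rw [Finset.sum_insert]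
    rw [mem_range]
    omega
  have h3 : ∑ b ∈ Finset.range (a / 2 + 1), 2 ^ b ≤ 2 ^ (a / 2 + 1) := by
    have := Nat.geomSum_lt (m := 2) (n := a / 2 + 1) (s := Finset.range (a / 2 + 1)) le_rfl
      (fun k hk => mem_range.1 hk)
    exact this.le
  have h4 : 2 ^ (a / 2 + 1) * 2 ^ 40 ≤ 2 ^ a := by
    rw [← pow_add]
    exact Nat.pow_le_pow_right (by norm_num) (by omega)
  have h5 : (sE 2 a : ℝ) * 2 ^ 40 ≤ 2 ^ a * (2 ^ 40 + 1) := by
    have : sE 2 a * 2 ^ 40 ≤ 2 ^ a * (2 ^ 40 + 1) := by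
      have h5 := h2.trans (Nat.add_le_add_left h3 _)
      calc sE 2 a * 2 ^ 40 ≤ (2 ^ a + 2 ^ (a / 2 + 1)) * 2 ^ 40 := Nat.mul_le_mul_right _ h5
        _ = 2 ^ a * 2 ^ 40 + 2 ^ (a / 2 + 1) * 2 ^ 40 := by ring
        _ ≤ 2 ^ a * 2 ^ 40 + 2 ^ a := Nat.add_le_add_left h4 _
        _ = 2 ^ a * (2 ^ 40 + 1) := by ring
    exact_mod_cast this
  have h6 : (0 : ℝ) < 2 ^ a := by positivity
  have h7 : (sE 2 a : ℝ) / 2 ^ a ≤ (2 ^ 40 + 1) / 2 ^ 40 := by
    rw [div_le_div_iff₀ h6 (by norm_num)]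
    linarith
  have h8 : rho a ≤ 1 / 2 ^ 40 := by
    have e : ((2 : ℝ) ^ 40 + 1) / 2 ^ 40 = 1 + 1 / 2 ^ 40 := by norm_num
    rw [e] at h7
    linarith
  have h9 : (SZ : ℝ) * rho a ≤ SZ * (1 / 2 ^ 40) := mul_le_mul_of_nonneg_left h8 (Nat.cast_nonneg _)
  rw [SZ_cast] at h9 ⊢
  norm_num at h9 ⊢
  linarith

theorem BA_le' : BA1 + BA5 ≤ 103859883806 := ble_iff.1 BA_le

/-- the exponent of `2` is at least `24` -/
theorem two_small {n : ℕ} (hn : n ≠ 0) (h3 : ¬ 3 ∣ n) (h : sigE n = 2 * n) :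
    24 ≤ n.factorization 2 := by
  by_contra hlt
  have h1 := log_eq hn h
  have h2 := gains hn h3 h ∅ (fun t ht => absurd ht (Finset.notMem_empty t))
  have h4 := sum_AA_small hn h3 h
  have h5 := rho_small (a := n.factorization 2) (by omega) (fact_ne_two hn h3 h)
  have h6 := Real.log_two_gt_d9
  have h7 : ((BA1 + BA5 + 7630237 : ℕ) : ℝ) ≤ ((104000000000 : ℕ) : ℝ) :=
    Nat.cast_le.2 ((Nat.add_le_add_right BA_le' _).trans (by norm_num))
  have h8 : 0 ≤ ∑ p ∈ AA n, gR p := Finset.sum_nonneg fun p _ => gR_nonneg p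
  simp only [Finset.sum_empty, Finset.filter_empty, Nat.cast_zero, add_zero] at h2
  rw [SZ_cast] at h2
  rw [Nat.cast_ofNat] at h7
  norm_num at h6
  linarith

/-- one data set -/
theorem use {n : ℕ} (hn : n ≠ 0) (h3 : ¬ 3 ∣ n) (h : sigE n = 2 * n) {b : Bool} {La : ℕ}
    {FL EL HL : List (ℕ × ℕ)} (D : Dat b La FL EL HL) (c5 : Bool)
    (hE : ∀ x ∈ EL, x.1 ∈ TT n ∧ n.factorization x.1 ≤ 4)
    (h5 : c5 = true → ¬ (5 ∈ TT n ∧ n.factorization 5 ≤ 4)) {T SH SG C5 R0 : ℕ}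
    (hT : Nat.ble (tot b La FL EL HL) T = true)
    (hSH : Nat.ble SH (ls (fun x => hh (FL ++ EL) x.1) FL) = true)
    (hSG : Nat.ble SG (ls (fun x => gD x.1) HL) = true) (hC5 : C5 ≤ cond c5 (gD 5) 0)
    (hR : (SZ : ℝ) * rho (n.factorization 2) ≤ R0) :
    693147180300 + SH + SG + C5 ≤ R0 + La * (∑ p ∈ AA n, cst b p) + (103859883806 + 7630237 + T) := by
  have hk := key hn h3 h D c5 hE h5
  have h6 := Real.log_two_gt_d9
  have h1 : ((SH : ℕ) : ℝ) ≤ (ls (fun x => hh (FL ++ EL) x.1) FL : ℕ) := by exact_mod_cast ble_iff.1 hSH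
  have h2 : ((SG : ℕ) : ℝ) ≤ (ls (fun x => gD x.1) HL : ℕ) := by exact_mod_cast ble_iff.1 hSG
  have h4 : ((C5 : ℕ) : ℝ) ≤ (cond c5 (gD 5) 0 : ℕ) := by exact_mod_cast hC5
  have h7 : ((BA1 + BA5 + 7630237 + tot b La FL EL HL : ℕ) : ℝ) ≤ ((103859883806 + 7630237 + T : ℕ) : ℝ) :=
    Nat.cast_le.2 (Nat.add_le_add (Nat.add_le_add_right BA_le' _) (ble_iff.1 hT))
  have h8 : (693147180300 : ℝ) ≤ (SZ : ℝ) * Real.log 2 := by
    rw [SZ_cast]
    norm_num at h6 ⊢
    linarith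
  have h9 : ((693147180300 + SH + SG + C5 : ℕ) : ℝ) ≤
      ((R0 + La * (∑ p ∈ AA n, cst b p) + (103859883806 + 7630237 + T) : ℕ) : ℝ) := by
    push_cast at hk h1 h2 h4 h7 hR ⊢
    linarith
  exact_mod_cast h9

theorem cst_sum {n : ℕ} (hn : n ≠ 0) (h3 : ¬ 3 ∣ n) (h : sigE n = 2 * n) :
    ∑ p ∈ AA n, cst true p ≤ max 1 (n.factorization 2) := by
  refine le_trans (Finset.sum_le_sum fun p hp => ?_) (two_adic hn h)
  have := (AA_facts hn h3 h hp).2.1
  exact cst_le (by omega)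

theorem A_big (b : Bool) {n : ℕ} (hn : n ≠ 0) (h3 : ¬ 3 ∣ n) (h : sigE n = 2 * n) {R0 : ℕ}
    (hR : (SZ : ℝ) * rho (n.factorization 2) ≤ R0) :
    cond b (31554370463 ≤ R0 + 5150000 * ∑ p ∈ AA n, cst b p)
      (27559738998 ≤ R0 + 7300000 * ∑ p ∈ AA n, cst b p) := by
  by_cases h5 : 5 ∈ TT n ∧ n.factorization 5 ≤ 4
  · cases b with
    | true =>
      have h6 := use hn h3 h datB1 false (fun x hx => by
        unfold EB1 at hx
        rw [List.mem_singleton] at hx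
        rw [hx]
        exact h5) (fun h => absurd h (by decide)) totB1 hhB1 gdB1 (Nat.zero_le _) hR
      show 31554370463 ≤ R0 + 5150000 * ∑ p ∈ AA n, cst true p
      omega
    | false =>
      have h6 := use hn h3 h datB0 false (fun x hx => by
        unfold EB0 at hx
        rw [List.mem_singleton] at hx
        rw [hx]
        exact h5) (fun h => absurd h (by decide)) totB0 hhB0 gdB0 (Nat.zero_le _) hR
      show 27559738998 ≤ R0 + 7300000 * ∑ p ∈ AA n, cst false p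
      omega
  · cases b with
    | true =>
      have h6 := use hn h3 h datA1 true (fun x hx => by
        unfold EA1 at hx
        exact absurd hx (List.not_mem_nil)) (fun _ => h5) totA1 hhA1 gdA1
        (C5 := 46000000000) (by rw [cond_true, gD5]) hR
      show 31554370463 ≤ R0 + 5150000 * ∑ p ∈ AA n, cst true p
      omega
    | false =>
      have h6 := use hn h3 h datA0 true (fun x hx => by
        unfold EA0 at hx
        exact absurd hx (List.not_mem_nil)) (fun _ => h5) totA0 hhA0 gdA0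
        (C5 := 46000000000) (by rw [cond_true, gD5]) hR
      show 27559738998 ≤ R0 + 7300000 * ∑ p ∈ AA n, cst false p
      omega

theorem main {n : ℕ} (hn : n ≠ 0) (h3 : ¬ 3 ∣ n) (h : sigE n = 2 * n) :
    6127 ≤ n.factorization 2 ∧ 3775 ≤ (AA n).card := by
  have h24 := two_small hn h3 h
  have hR1 : (SZ : ℝ) * rho (n.factorization 2) ≤ ((488281250 : ℕ) : ℝ) := by
    have h1 := rho_large h24
    refine (mul_le_mul_of_nonneg_left h1 (Nat.cast_nonneg _)).trans ?_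
    rw [SZ_cast]
    norm_num
  have h1 := A_big true hn h3 h hR1
  change 31554370463 ≤ 488281250 + 5150000 * ∑ p ∈ AA n, cst true p at h1
  have h2 := cst_sum hn h3 h
  have h4 : 100 ≤ n.factorization 2 := by
    rw [max_eq_right (by omega)] at h2
    omega
  have hR2 : (SZ : ℝ) * rho (n.factorization 2) ≤ ((1 : ℕ) : ℝ) := by
    rw [Nat.cast_one]
    exact rho_tiny h4
  have h5 := A_big true hn h3 h hR2
  have h6 := A_big false hn h3 h hR2
  change 31554370463 ≤ 1 + 5150000 * ∑ p ∈ AA n, cst true p at h5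
  change 27559738998 ≤ 1 + 7300000 * ∑ p ∈ AA n, cst false p at h6
  have h7 : ∑ p ∈ AA n, cst false p = (AA n).card := by
    rw [Finset.card_eq_sum_ones]
    exact Finset.sum_congr rfl fun p _ => rfl
  rw [max_eq_right (by omega)] at h2
  rw [h7] at h6
  exact ⟨by omega, by omega⟩

end Pool.Agent.EPM
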