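import Pool.Agent.Lib_MP_bed364_mp.Comp
import Pool.Agent.Lib_MP_bed364_mp.Comb

/-!
# MP_bed364_nt, many primes: the computable sums
-/

set_option autoImplicit false

namespace Pool.Agent.EPM

open Finset

theorem ble_iff {a b : ℕ} : Nat.ble a b = true ↔ a ≤ b := by rw [Nat.ble_eq]

theorem beq_iff {a b : ℕ} : Nat.beq a b = true ↔ a = b := by rw [Nat.beq_eq]

theorem beq_false {a b : ℕ} : Nat.beq a b = false ↔ a ≠ b := by
  rw [Bool.eq_false_iff, Ne, beq_iff]

theorem MQ_dvd : MQ ∣ Nat.factorial 509 := by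
  refine Nat.dvd_of_mod_eq_zero ?_
  decide +kernel

theorem isQ_of_prime {p : ℕ} (hp : p.Prime) : isQ p = true := by
  unfold isQ
  by_cases h : p ≤ 528
  · have h1 : Nat.ble p 528 = true := ble_iff.2 h
    rw [h1, cond_true]
    by_cases h2 : p ≤ 19
    · have h3 : Nat.ble p 19 = true := ble_iff.2 h2
      rw [h3, Bool.true_or]
    · have h3 : Nat.gcd p 9699690 = 1 := by
        rw [← Nat.coprime_iff_gcd_eq_one, hp.coprime_iff_not_dvd]
        intro h4
        have h5 : (9699690 : ℕ) ∣ Nat.factorial 19 := by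
          refine Nat.dvd_of_mod_eq_zero ?_
          decide +kernel
        exact h2 ((hp.dvd_factorial).1 (h4.trans h5))
      have h4 : Nat.beq (Nat.gcd p 9699690) 1 = true := beq_iff.2 h3
      rw [h4, Bool.or_true]
  · have h1 : Nat.ble p 528 = false := by
      rw [Bool.eq_false_iff]
      intro h2
      exact h (ble_iff.1 h2)
    rw [h1, cond_false]
    refine beq_iff.2 ?_
    rw [← Nat.coprime_iff_gcd_eq_one, hp.coprime_iff_not_dvd]
    intro h4
    have := (hp.dvd_factorial).1 (h4.trans MQ_dvd)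
    omega

theorem rs_eq (f : ℕ → ℕ) : ∀ (d s l : ℕ), l ≤ 2 ^ d → rs f d s l = ∑ i ∈ range l, f (s + i) := by
  intro d
  induction d with
  | zero =>
    intro s l hl
    change cond (Nat.beq l 0) 0 (f s) = _
    have : l = 0 ∨ l = 1 := by
      rw [pow_zero] at hl
      omega
    rcases this with rfl | rfl
    · simp
    · rw [Finset.sum_range_one, add_zero]
      rfl
  | succ d ih =>
    intro s l hl
    change rs f d s (l / 2) + rs f d (s + l / 2) (l - l / 2) = _
    rw [pow_succ] at hl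
    rw [ih s (l / 2) (by omega), ih (s + l / 2) (l - l / 2) (by omega)]
    have h3 : l = l / 2 + (l - l / 2) := by omega
    conv_rhs => rw [h3]
    rw [Finset.sum_range_add]
    congr 1
    refine Finset.sum_congr rfl fun i _ => ?_
    rw [add_assoc s (l / 2) i]

theorem ls_cons (f : ℕ × ℕ → ℕ) (x : ℕ × ℕ) (L : List (ℕ × ℕ)) : ls f (x :: L) = f x + ls f L := rfl

theorem ls_append (f : ℕ × ℕ → ℕ) (L M : List (ℕ × ℕ)) : ls f (L ++ M) = ls f L + ls f M := by
  induction L with
  | nil => change ls f M = 0 + ls f M; rw [zero_add]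
  | cons x L ih => rw [List.cons_append, ls_cons, ls_cons, ih, add_assoc]

theorem ls_eq (f : ℕ × ℕ → ℕ) (L : List (ℕ × ℕ)) (hL : L.Nodup) : ls f L = ∑ x ∈ L.toFinset, f x := by
  induction L with
  | nil => rfl
  | cons x L ih =>
    rw [List.nodup_cons] at hL
    rw [ls_cons, List.toFinset_cons, Finset.sum_insert (fun h => hL.1 (List.mem_toFinset.1 h)), ih hL.2]

theorem mem_iff (L : List (ℕ × ℕ)) (q : ℕ) : mem L q = true ↔ ∃ x ∈ L, x.1 = q := by
  induction L with
  | nil => simp [mem]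
  | cons x L ih =>
    change (Nat.beq x.1 q || mem L q) = true ↔ _
    rw [Bool.or_eq_true, beq_iff, ih]
    simp

/-- the candidates -/
def XX (FL : List (ℕ × ℕ)) : Finset ℕ :=
  (range 196608).filter fun q => q % 6 = 1 ∧ 7 ≤ q ∧ isX FL q = true

theorem cst_pos {b : Bool} {q : ℕ} (hq : q % 2 = 1) : 1 ≤ cst b q := by
  cases b with
  | false => exact le_rfl
  | true =>
    change 1 ≤ Nat.log2 (Nat.gcd (q + 1) 64)
    have h1 : 2 ∣ Nat.gcd (q + 1) 64 := Nat.dvd_gcd (by omega) (by norm_num)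
    have h2 : 2 ≤ Nat.gcd (q + 1) 64 := Nat.le_of_dvd (Nat.gcd_pos_of_pos_left _ (by omega)) h1
    rw [Nat.le_log2 (by omega)]
    simpa using h2

theorem cst_le {b : Bool} {q : ℕ} (hq : q % 2 = 1) : cst b q ≤ (q + 1).factorization 2 := by
  have h2 : 2 ^ cst b q ∣ q + 1 := by
    cases b with
    | false =>
      change 2 ^ 1 ∣ q + 1
      omega
    | true =>
      change 2 ^ Nat.log2 (Nat.gcd (q + 1) 64) ∣ q + 1
      have h1 : Nat.gcd (q + 1) 64 ∣ 2 ^ 6 := Nat.gcd_dvd_right _ _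
      obtain ⟨k, _, hk⟩ := (Nat.dvd_prime_pow Nat.prime_two).1 h1
      have h3 : Nat.log2 (Nat.gcd (q + 1) 64) = k := by
        rw [hk, Nat.log2_two_pow]
      rw [h3, ← hk]
      exact Nat.gcd_dvd_left _ _
  exact (Nat.prime_two.pow_dvd_iff_le_factorization (by omega)).1 h2

theorem WW_zero {b : Bool} {La q : ℕ} (hLa : 5086264 ≤ La) (hq : 196608 ≤ q) (hq2 : q % 2 = 1) :
    WW b La q = 0 := by
  change (SZ * (6 * (q * q) - (9 * q + 4)) / (6 * (q * (q * q))) + 1) - La * cst b q = 0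
  apply Nat.sub_eq_zero_of_le
  have h1 : SZ * (6 * (q * q) - (9 * q + 4)) / (6 * (q * (q * q))) ≤ 5086263 := by
    rw [← Nat.lt_succ_iff, Nat.div_lt_iff_lt_mul (by positivity)]
    have h2 : SZ * (6 * (q * q) - (9 * q + 4)) ≤ SZ * (6 * (q * q)) :=
      Nat.mul_le_mul_left _ (Nat.sub_le _ _)
    refine lt_of_le_of_lt h2 ?_
    have h3 : SZ < 5086264 * q := by
      unfold SZ
      omega
    have h4 : 0 < 6 * (q * q) := by positivity
    calc SZ * (6 * (q * q)) < 5086264 * q * (6 * (q * q)) := Nat.mul_lt_mul_of_pos_right h3 h4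
      _ = 5086264 * (6 * (q * (q * q))) := by ring
  have h5 := cst_pos (b := b) hq2
  calc _ ≤ 5086263 + 1 := Nat.add_le_add_right h1 1
    _ ≤ La * 1 := by omega
    _ ≤ La * cst b q := Nat.mul_le_mul_left _ h5

theorem fW_eq (b : Bool) (La : ℕ) (FL : List (ℕ × ℕ)) (f : ℕ → ℕ) (q : ℕ)
    (hf : WW b La q = 0 → f q = 0) : fW b La FL f q = if isX FL q = true then f q else 0 := by
  unfold fW fX
  by_cases h : WW b La q = 0
  · rw [beq_iff.2 h, cond_true]
    split_ifs
    · exact (hf h).symm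
    · rfl
  · rw [beq_false.2 h, cond_false]
    cases isX FL q <;> rfl

theorem UU_eq (b : Bool) (La : ℕ) (FL PL : List (ℕ × ℕ)) :
    UU b La FL PL = ∑ q ∈ XX FL, uu b La PL q := by
  unfold UU
  rw [rs_eq _ 15 1 32767 (by norm_num)]
  have h1 : ∀ i ∈ range 32767, fW b La FL (uu b La PL) (Nat.succ (Nat.mul 6 (1 + i))) =
      if isX FL (6 * i + 7) = true then uu b La PL (6 * i + 7) else 0 := by
    intro i _
    have e : Nat.succ (Nat.mul 6 (1 + i)) = 6 * i + 7 := by
      show 6 * (1 + i) + 1 = _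
      ring
    rw [e]
    refine fW_eq b La FL _ _ fun h => ?_
    unfold uu
    rw [h]
    exact Nat.zero_sub _
  rw [Finset.sum_congr rfl h1, ← Finset.sum_filter]
  symm
  refine Finset.sum_bij' (fun q _ => (q - 7) / 6) (fun i _ => 6 * i + 7) ?_ ?_ ?_ ?_ ?_
  · intro q hq
    rw [XX, mem_filter, mem_range] at hq
    rw [mem_filter, mem_range]
    have e : 6 * ((q - 7) / 6) + 7 = q := by omega
    rw [e]
    exact ⟨by omega, hq.2.2.2⟩
  · intro i hi
    rw [mem_filter, mem_range] at hi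
    rw [XX, mem_filter, mem_range]
    exact ⟨by omega, by omega, by omega, hi.2⟩
  · intro q hq
    rw [XX, mem_filter, mem_range] at hq
    omega
  · intro i hi
    omega
  · intro q hq
    rw [XX, mem_filter, mem_range] at hq
    have e : 6 * ((q - 7) / 6) + 7 = q := by omega
    rw [e]

theorem MM_eq (b : Bool) (La : ℕ) (hLa : 5086264 ≤ La) (FL : List (ℕ × ℕ)) (f : ℕ → ℕ) (r a : ℕ)
    (hra : r % 6 = 1 ∧ a = 2 ∨ r % 6 = 5 ∧ a = 4) (h5 : 5 ≤ r) (hf : ∀ q, WW b La q = 0 → f q = 0) :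
    MM b La FL f r a = ∑ q ∈ (XX FL).filter (fun q => r ∣ q + 1), f q := by
  unfold MM
  have hl : Nat.succ (Nat.div 32768 r) ≤ 2 ^ 13 := by
    show 32768 / r + 1 ≤ 8192
    have h6 : 32768 / r ≤ 32768 / 5 := Nat.div_le_div_left h5 (by norm_num)
    norm_num at h6
    omega
  rw [rs_eq _ 13 0 _ hl]
  have hmod : ∀ i, (r * (6 * i + a)) % 6 = 2 := by
    intro i
    rcases hra with ⟨h1, rfl⟩ | ⟨h1, rfl⟩
    · rw [Nat.mul_mod, h1]
      omega
    · rw [Nat.mul_mod, h1]
      omega
  have ha2 : 2 ≤ a := by rcases hra with ⟨_, rfl⟩ | ⟨_, rfl⟩ <;> norm_num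
  have hge : ∀ i, 8 ≤ r * (6 * i + a) := fun i => by
    calc 8 ≤ 5 * 2 := by norm_num
      _ ≤ r * (6 * i + a) := Nat.mul_le_mul h5 (by omega)
  have h1 : ∀ i ∈ range (Nat.succ (Nat.div 32768 r)),
      fW b La FL f (Nat.pred (Nat.mul r (Nat.add (Nat.mul 6 (0 + i)) a))) =
      if r * (6 * i + a) - 1 ∈ XX FL then f (r * (6 * i + a) - 1) else 0 := by
    intro i _
    have e : Nat.pred (Nat.mul r (Nat.add (Nat.mul 6 (0 + i)) a)) = r * (6 * i + a) - 1 := by
      rw [zero_add]
      rfl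
    rw [e, fW_eq b La FL f _ (hf _)]
    have h3 := hmod i
    have h4 := hge i
    by_cases hB : r * (6 * i + a) - 1 < 196608
    · have h6 : r * (6 * i + a) - 1 ∈ XX FL ↔ isX FL (r * (6 * i + a) - 1) = true := by
        rw [XX, mem_filter, mem_range]
        constructor
        · exact fun h => h.2.2.2
        · exact fun h => ⟨hB, by omega, by omega, h⟩
      simp only [h6]
    · rw [hf _ (WW_zero hLa (by omega) (by omega))]
      simp
  rw [Finset.sum_congr rfl h1, ← Finset.sum_filter]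
  refine Finset.sum_bij' (fun i _ => r * (6 * i + a) - 1) (fun q _ => ((q + 1) / r - a) / 6) ?_ ?_ ?_ ?_ ?_
  · intro i hi
    rw [mem_filter] at hi ⊢
    have h4 := hge i
    refine ⟨hi.2, ?_⟩
    rw [Nat.sub_add_cancel (by omega)]
    exact dvd_mul_right _ _
  · intro q hq
    rw [mem_filter] at hq ⊢
    obtain ⟨hq1, j, hj⟩ := hq
    have hq2 := hq1
    rw [XX, mem_filter, mem_range] at hq2
    have hr : 0 < r := by omega
    have e : (q + 1) / r = j := by rw [hj]; exact Nat.mul_div_cancel_left j hr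
    have hj6 : j % 6 = a % 6 := by
      have h6 : (r * j) % 6 = 2 := by rw [← hj]; omega
      rw [Nat.mul_mod] at h6
      have h7 : j % 6 < 6 := Nat.mod_lt _ (by norm_num)
      rcases hra with ⟨h8, rfl⟩ | ⟨h8, rfl⟩
      · rw [h8] at h6
        omega
      · rw [h8] at h6
        have h9 : j % 6 = 0 ∨ j % 6 = 1 ∨ j % 6 = 2 ∨ j % 6 = 3 ∨ j % 6 = 4 ∨ j % 6 = 5 := by omega
        rcases h9 with h9 | h9 | h9 | h9 | h9 | h9 <;> rw [h9] at h6 <;> omega
    have ha6 : a < 6 := by rcases hra with ⟨_, rfl⟩ | ⟨_, rfl⟩ <;> norm_num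
    have hja : a ≤ j := by
      rw [Nat.mod_eq_of_lt ha6] at hj6
      rw [← hj6]
      exact Nat.mod_le _ _
    have e2 : 6 * ((j - a) / 6) + a = j := by
      rw [Nat.mod_eq_of_lt ha6] at hj6
      omega
    rw [e]
    refine ⟨?_, ?_⟩
    · rw [mem_range]
      show (j - a) / 6 < 32768 / r + 1
      have h10 : (j - a) / 6 ≤ 32768 / r := by
        rw [Nat.le_div_iff_mul_le hr]
        have h11 : r * (6 * ((j - a) / 6) + a) < 196609 := by rw [e2, ← hj]; omega
        have h12 : r * (6 * ((j - a) / 6) + a) = 6 * ((j - a) / 6 * r) + r * a := by ring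
        omega
      omega
    · rw [e2, ← hj]
      exact hq1
  · intro i hi
    have h4 := hge i
    rw [Nat.sub_add_cancel (by omega), Nat.mul_div_cancel_left _ (by omega : 0 < r)]
    omega
  · intro q hq
    rw [mem_filter] at hq
    obtain ⟨hq1, j, hj⟩ := hq
    have hq2 := hq1
    rw [XX, mem_filter, mem_range] at hq2
    have hr : 0 < r := by omega
    have e : (q + 1) / r = j := by rw [hj]; exact Nat.mul_div_cancel_left j hr
    have hj6 : j % 6 = a % 6 := by
      have h6 : (r * j) % 6 = 2 := by rw [← hj]; omega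
      rw [Nat.mul_mod] at h6
      have h7 : j % 6 < 6 := Nat.mod_lt _ (by norm_num)
      rcases hra with ⟨h8, rfl⟩ | ⟨h8, rfl⟩
      · rw [h8] at h6
        omega
      · rw [h8] at h6
        have h9 : j % 6 = 0 ∨ j % 6 = 1 ∨ j % 6 = 2 ∨ j % 6 = 3 ∨ j % 6 = 4 ∨ j % 6 = 5 := by omega
        rcases h9 with h9 | h9 | h9 | h9 | h9 | h9 <;> rw [h9] at h6 <;> omega
    have ha6 : a < 6 := by rcases hra with ⟨_, rfl⟩ | ⟨_, rfl⟩ <;> norm_num
    have hja : a ≤ j := by
      rw [Nat.mod_eq_of_lt ha6] at hj6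
      rw [← hj6]
      exact Nat.mod_le _ _
    have e2 : 6 * ((j - a) / 6) + a = j := by
      rw [Nat.mod_eq_of_lt ha6] at hj6
      omega
    rw [e, e2, ← hj]
    omega
  · intro i hi
    rfl

theorem fst_unique (L : List (ℕ × ℕ)) (q s t : ℕ) (hs : fst L s q = true) (ht : fst L t q = true)
    (hsd : s ∣ q + 1) (htd : t ∣ q + 1) : s = t := by
  induction L with
  | nil => exact absurd hs (by simp [fst])
  | cons x L ih =>
    change cond (Nat.beq x.1 s) true (cond (Nat.beq (Nat.mod (Nat.succ q) x.1) 0) false (fst L s q)) =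
      true at hs
    change cond (Nat.beq x.1 t) true (cond (Nat.beq (Nat.mod (Nat.succ q) x.1) 0) false (fst L t q)) =
      true at ht
    have hmod : ∀ z : ℕ, z ∣ q + 1 → Nat.beq (Nat.mod (Nat.succ q) z) 0 = true := fun z hz =>
      beq_iff.2 (Nat.mod_eq_zero_of_dvd hz)
    by_cases h1 : x.1 = s
    · by_cases h2 : x.1 = t
      · rw [← h1, h2]
      · rw [beq_false.2 h2, cond_false, hmod x.1 (by rw [h1]; exact hsd), cond_true] at ht
        exact absurd ht (by decide)
    · by_cases h2 : x.1 = t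
      · rw [beq_false.2 h1, cond_false, hmod x.1 (by rw [h2]; exact htd), cond_true] at hs
        exact absurd hs (by decide)
      · rw [beq_false.2 h1, cond_false] at hs
        rw [beq_false.2 h2, cond_false] at ht
        cases h3 : Nat.beq (Nat.mod (Nat.succ q) x.1) 0
        · rw [h3, cond_false] at hs ht
          exact ih hs ht
        · rw [h3, cond_true] at hs
          exact absurd hs (by decide)

theorem vv_eq (r q : ℕ) : vv r q = if r ∣ q + 1 then (if r * r ∣ q + 1 then 2 else 1) else 0 := by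
  change cond (Nat.beq ((q + 1) % r) 0) (cond (Nat.beq ((q + 1) % (r * r)) 0) 2 1) 0 = _
  by_cases h1 : r ∣ q + 1
  · rw [beq_iff.2 (Nat.mod_eq_zero_of_dvd h1), cond_true, if_pos h1]
    by_cases h2 : r * r ∣ q + 1
    · rw [beq_iff.2 (Nat.mod_eq_zero_of_dvd h2), cond_true, if_pos h2]
    · rw [beq_false.2 (fun h => h2 (Nat.dvd_of_mod_eq_zero h)), cond_false, if_neg h2]
  · rw [beq_false.2 (fun h => h1 (Nat.dvd_of_mod_eq_zero h)), cond_false, if_neg h1]

theorem vv_le {r q : ℕ} (hr : r.Prime) : vv r q ≤ (q + 1).factorization r := by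
  rw [vv_eq]
  split_ifs with h1 h2
  · rw [← pow_two] at h2
    exact (hr.pow_dvd_iff_le_factorization (by omega)).1 h2
  · exact hr.factorization_pos_of_dvd (by omega) h1
  · exact Nat.zero_le _

end Pool.Agent.EPM
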