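import Pool.Agent.Lib_MP_bed364_nt.Small
import Pool.Agent.Lib_MP_bed364_mp.Sound

/-!
# MP_bed364_nt, many primes: the logarithmic identity and the gains
-/

set_option autoImplicit false

namespace Pool.Agent.EPM

open Finset Pool.Agent.EP364

/-- the gain of the prime `t` with the exponent `a` -/
noncomputable def gn (t a : ℕ) : ℝ := Real.log ((sE t a : ℝ) / (t : ℝ) ^ a)

/-- the logarithmic identity -/
theorem log_eq {n : ℕ} (hn : n ≠ 0) (h : sigE n = 2 * n) :
    Real.log 2 = rho (n.factorization 2) + ∑ p ∈ AA n, ww p +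
      ∑ t ∈ TT n, gn t (n.factorization t) := by
  have h1 : (2 : ℝ) = ∏ p ∈ n.primeFactors,
      ((sE p (n.factorization p) : ℝ) / (p : ℝ) ^ (n.factorization p)) := by
    rw [Finset.prod_div_distrib]
    have h2 : (∏ p ∈ n.primeFactors, (sE p (n.factorization p) : ℝ)) = 2 * (n : ℝ) := by
      have := sigE_eq hn
      rw [h] at this
      exact_mod_cast this.symm
    have h3 : (∏ p ∈ n.primeFactors, (p : ℝ) ^ (n.factorization p)) = (n : ℝ) := by
      have := Nat.prod_factorization_pow_eq_self hn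
      rw [Finsupp.prod, Nat.support_factorization] at this
      exact_mod_cast this
    rw [h2, h3]
    have : (n : ℝ) ≠ 0 := by exact_mod_cast hn
    field_simp
  have hpos : ∀ p ∈ n.primeFactors,
      0 < (sE p (n.factorization p) : ℝ) / (p : ℝ) ^ (n.factorization p) := by
    intro p hp
    have hpp := Nat.prime_of_mem_primeFactors hp
    have h2 := sE_pos hpp.pos
      (hpp.factorization_pos_of_dvd hn (Nat.dvd_of_mem_primeFactors hp)).ne'
    have h3 : (0 : ℝ) < p := by exact_mod_cast hpp.pos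
    have h4 : (0 : ℝ) < sE p (n.factorization p) := by exact_mod_cast h2
    positivity
  have h2 : Real.log 2 = ∑ p ∈ n.primeFactors,
      Real.log ((sE p (n.factorization p) : ℝ) / (p : ℝ) ^ (n.factorization p)) := by
    rw [← Real.log_prod (fun p hp => (hpos p hp).ne'), ← h1]
  rw [h2]
  have h3 : ∀ p ∈ n.primeFactors,
      Real.log ((sE p (n.factorization p) : ℝ) / (p : ℝ) ^ (n.factorization p)) =
        (if p = 2 then rho (n.factorization 2) else 0) +
        (if p ≠ 2 ∧ n.factorization p = 2 then ww p else 0) +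
        (if p ≠ 2 ∧ 3 ≤ n.factorization p then gn p (n.factorization p) else 0) := by
    intro p hp
    have hpp := Nat.prime_of_mem_primeFactors hp
    have hp1 := hpp.factorization_pos_of_dvd hn (Nat.dvd_of_mem_primeFactors hp)
    have hp0 : (0 : ℝ) < p := by exact_mod_cast hpp.pos
    by_cases h4 : p = 2
    · subst h4
      simp [rho]
    by_cases h5 : n.factorization p = 2
    · rw [if_neg h4, if_pos ⟨h4, h5⟩, if_neg (by omega), h5, zero_add, add_zero, sE_two]
      unfold ww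
      congr 1
      push_cast
      field_simp
    by_cases h6 : 3 ≤ n.factorization p
    · rw [if_neg h4, if_neg (by tauto), if_pos ⟨h4, h6⟩, zero_add, zero_add]
      rfl
    · have h7 : n.factorization p = 1 := by omega
      rw [if_neg h4, if_neg (by tauto), if_neg (by tauto), h7]
      have h8 : sE p 1 = p := by
        unfold sE
        rw [Nat.divisors_one, sum_singleton, pow_one]
      rw [h8, pow_one, div_self hp0.ne', Real.log_one]
      norm_num
  rw [Finset.sum_congr rfl h3, Finset.sum_add_distrib, Finset.sum_add_distrib, ← Finset.sum_filter,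
    ← Finset.sum_filter, ← Finset.sum_filter]
  congr 1
  congr 1
  by_cases h4 : 2 ∈ n.primeFactors
  · rw [Finset.filter_eq', if_pos h4, sum_singleton]
  · rw [Finset.filter_eq', if_neg h4, sum_empty]
    have h5 : n.factorization 2 = 0 := by
      rw [← Nat.support_factorization, Finsupp.mem_support_iff, not_not] at h4
      exact h4
    rw [h5]
    unfold rho sE
    simp

theorem gn_le_of {t a : ℕ} (ht : 0 < t) (ha : a ≠ 0) {y : ℝ}
    (h : (sE t a : ℝ) ≤ (t : ℝ) ^ a * (1 + y)) : gn t a ≤ y := by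
  have h1 : (0 : ℝ) < t := by exact_mod_cast ht
  have h2 : (0 : ℝ) < sE t a := by exact_mod_cast sE_pos ht ha
  have h3 : (0 : ℝ) < (t : ℝ) ^ a := by positivity
  have h4 : (0 : ℝ) < (sE t a : ℝ) / (t : ℝ) ^ a := by positivity
  have h5 := Real.log_le_sub_one_of_pos h4
  have h6 : (sE t a : ℝ) / (t : ℝ) ^ a ≤ 1 + y := by
    rw [div_le_iff₀ h3, mul_comm]
    exact h
  unfold gn
  linarith

/-- the gain of an exponent `≥ 5`, `≠ 6` -/
theorem gn_five {t a : ℕ} (ht : 2 ≤ t) (ha : 5 ≤ a) (ha6 : a ≠ 6) :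
    gn t a ≤ 1 / ((t : ℝ) ^ 3 * (t - 1)) := by
  refine gn_le_of (by omega) (by omega) ?_
  have ht' : (2 : ℝ) ≤ t := by exact_mod_cast ht
  have h1 : a.divisors ⊆ insert a (Finset.range (a - 3)) := by
    intro b hb
    rw [Nat.mem_divisors] at hb
    rw [mem_insert, mem_range]
    obtain ⟨c, hc⟩ := hb.1
    rcases Nat.lt_or_ge c 2 with h2 | h2
    · left
      interval_cases c
      · omega
      · omega
    · right
      have h3 : b * 2 ≤ b * c := Nat.mul_le_mul_left b h2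
      rcases Nat.lt_or_ge a 7 with h4 | h4
      · have h5 : a = 5 := by omega
        subst h5
        have h6 : b = 1 := by
          have h7 := (Nat.dvd_prime Nat.prime_five).1 hb.1
          omega
        omega
      · omega
  have h2 : sE t a ≤ t ^ a + ∑ b ∈ Finset.range (a - 3), t ^ b := by
    unfold sE
    refine (Finset.sum_le_sum_of_subset h1).trans ?_
    rw [Finset.sum_insert]
    rw [mem_range]
    omega
  have h3 : (sE t a : ℝ) ≤ (t : ℝ) ^ a + ∑ b ∈ Finset.range (a - 3), (t : ℝ) ^ b := by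
    exact_mod_cast h2
  have h4 : ∑ b ∈ Finset.range (a - 3), (t : ℝ) ^ b ≤ (t : ℝ) ^ a / (t ^ 3 * (t - 1)) := by
    rw [geom_sum_eq (by linarith), div_le_div_iff₀ (by linarith)
      (mul_pos (by positivity) (by linarith))]
    obtain ⟨b, rfl⟩ : ∃ b, a = b + 3 := ⟨a - 3, by omega⟩
    rw [Nat.add_sub_cancel]
    have h5 : (0 : ℝ) < (t : ℝ) ^ b := by positivity
    have h6 : (0 : ℝ) ≤ (t : ℝ) ^ 3 * ((t : ℝ) - 1) := mul_nonneg (by positivity) (by linarith)
    rw [pow_add]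
    nlinarith
  calc (sE t a : ℝ) ≤ (t : ℝ) ^ a + (t : ℝ) ^ a / (t ^ 3 * (t - 1)) := h3.trans (by linarith)
    _ = (t : ℝ) ^ a * (1 + 1 / ((t : ℝ) ^ 3 * (t - 1))) := by ring

/-- the gain of an exponent `≥ 3` -/
theorem gn_three {t a : ℕ} (ht : 2 ≤ t) (ha : 3 ≤ a) :
    gn t a ≤ 1 / (t : ℝ) ^ 2 + 1 / (t : ℝ) ^ 3 := by
  have ht' : (2 : ℝ) ≤ t := by exact_mod_cast ht
  have ht0 : (0 : ℝ) < t := by linarith
  have h0 : (0 : ℝ) < 1 / (t : ℝ) ^ 2 := by positivity
  have h0' : (0 : ℝ) < 1 / (t : ℝ) ^ 3 := by positivity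
  by_cases h3 : a = 3
  · subst h3
    refine (gn_le_of (y := 1 / (t : ℝ) ^ 2) (by omega) (by norm_num) ?_).trans (by linarith)
    have : sE t 3 = t + t ^ 3 := by
      unfold sE
      have h : (3 : ℕ).divisors = {1, 3} := by decide
      rw [h, sum_pair (by norm_num), pow_one]
    rw [this]
    push_cast
    refine le_of_eq ?_
    field_simp
    ring
  by_cases h4 : a = 4
  · subst h4
    refine gn_le_of (by omega) (by norm_num) ?_
    have : sE t 4 = t + (t ^ 2 + t ^ 4) := by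
      unfold sE
      have h : (4 : ℕ).divisors = {1, 2, 4} := by decide
      rw [h, sum_insert (by decide), sum_pair (by norm_num), pow_one]
    rw [this]
    push_cast
    refine le_of_eq ?_
    field_simp
    ring
  by_cases h6 : a = 6
  · subst h6
    refine gn_le_of (by omega) (by norm_num) ?_
    have : sE t 6 = t + (t ^ 2 + (t ^ 3 + t ^ 6)) := by
      unfold sE
      have h : (6 : ℕ).divisors = {1, 2, 3, 6} := by decide
      rw [h, sum_insert (by decide), sum_insert (by decide), sum_pair (by norm_num), pow_one]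
    rw [this]
    push_cast
    have h7 : (t : ℝ) ^ 6 * (1 + (1 / (t : ℝ) ^ 2 + 1 / (t : ℝ) ^ 3)) = t ^ 6 + t ^ 4 + t ^ 3 := by
      field_simp
      ring
    rw [h7]
    nlinarith [pow_pos ht0 2, pow_pos ht0 3, mul_nonneg (pow_pos ht0 2).le (show (0 : ℝ) ≤ t - 2 by linarith),
      mul_nonneg (pow_pos ht0 3).le (show (0 : ℝ) ≤ t - 2 by linarith)]
  · refine (gn_five ht (by omega) h6).trans ?_
    have h7 : (1 : ℝ) / ((t : ℝ) ^ 3 * (t - 1)) ≤ 1 / (t : ℝ) ^ 3 := by
      refine one_div_le_one_div_of_le (by positivity) ?_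
      have : (0 : ℝ) < (t : ℝ) ^ 3 := by positivity
      nlinarith
    linarith

/-- exponent `6` is impossible for primes `= 2 mod 3` -/
theorem ne_six {n t : ℕ} (hn : n ≠ 0) (h3 : ¬ 3 ∣ n) (h : sigE n = 2 * n) (ht : t ∈ TT n)
    (hm : t % 3 = 2) : n.factorization t ≠ 6 := by
  intro h6
  have h4 : ¬ 3 ∣ 2 * n := by
    intro h5
    rcases (Nat.prime_three.dvd_mul).1 h5 with h6 | h6
    · omega
    · exact h3 h6
  apply h4
  have h5 : t ∈ n.primeFactors := (mem_filter.1 ht).1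
  rw [← h, sigE_eq hn]
  refine Dvd.dvd.trans ?_ (Finset.dvd_prod_of_mem (fun p => sE p (n.factorization p)) h5)
  change 3 ∣ sE t (n.factorization t)
  rw [h6]
  have : sE t 6 = t + (t ^ 2 + (t ^ 3 + t ^ 6)) := by
    unfold sE
    have h : (6 : ℕ).divisors = {1, 2, 3, 6} := by decide
    rw [h, sum_insert (by decide), sum_insert (by decide), sum_pair (by norm_num), pow_one]
  rw [this]
  apply Nat.dvd_of_mod_eq_zero
  rw [Nat.add_mod, Nat.add_mod (t ^ 2), Nat.add_mod (t ^ 3), Nat.pow_mod t 2, Nat.pow_mod t 3,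
    Nat.pow_mod t 6, hm]

/-- the number of the hits of `t` -/
theorem hits {n t : ℕ} (hn : n ≠ 0) (h : sigE n = 2 * n) (htp : t.Prime) (ht2 : t ≠ 2)
    (ht : t ∈ n.primeFactors) :
    ∑ p ∈ AA n, (p + 1).factorization t + 1 ≤ n.factorization t := by
  have h1 := fact_prod (q := t) hn h
  rw [fact_odd hn ht2 htp, if_pos ht] at h1
  omega

/-- cubic bound of the logarithm -/
theorem ww_cubic {p : ℕ} (hp : 7 ≤ p) :
    ww p ≤ 1 / (p : ℝ) - 1 / (2 * (p : ℝ) ^ 2) + 1 / (3 * (p : ℝ) ^ 3) := by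
  have hp' : (7 : ℝ) ≤ p := by exact_mod_cast hp
  have hp0 : (0 : ℝ) < p := by linarith
  obtain ⟨x, hx⟩ : ∃ x : ℝ, x = 1 / p := ⟨_, rfl⟩
  have hx0 : 0 < x := by rw [hx]; positivity
  have hx7 : x ≤ 1 / 7 := by
    rw [hx]
    exact one_div_le_one_div_of_le (by norm_num) hp'
  have h1 := Real.abs_log_sub_add_sum_range_le (x := -x) (by rw [abs_neg, abs_of_pos hx0]; linarith) 4
  rw [abs_neg, abs_of_pos hx0, sub_neg_eq_add] at h1
  have h2 := (le_abs_self _).trans h1
  simp only [Finset.sum_range_succ, Finset.sum_range_zero] at h2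
  have h3 : x ^ (4 + 1) / (1 - x) ≤ x ^ 4 / 4 := by
    rw [div_le_div_iff₀ (by linarith) (by norm_num)]
    have h4 : 0 < x ^ 4 := by positivity
    have e : x ^ (4 + 1) = x ^ 4 * x := pow_succ x 4
    rw [e]
    nlinarith [mul_nonneg h4.le (by linarith : (0 : ℝ) ≤ 1 - 5 * x)]
  have h5 : ww p = Real.log (1 + x) := by
    unfold ww
    rw [hx]
  have h6 : 1 / (p : ℝ) - 1 / (2 * (p : ℝ) ^ 2) + 1 / (3 * (p : ℝ) ^ 3) = x - x ^ 2 / 2 + x ^ 3 / 3 := by
    rw [hx]
    field_simp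
  rw [h5, h6]
  norm_num at h2
  ring_nf at h2 h3 ⊢
  linarith

theorem SZ_cast : (SZ : ℝ) = 1000000000000 := by norm_num [SZ]

theorem div_succ_ge (a b : ℕ) (hb : 0 < b) : (a : ℝ) / b ≤ ((a / b + 1 : ℕ) : ℝ) := by
  have hb' : (0 : ℝ) < b := by exact_mod_cast hb
  rw [div_le_iff₀ hb']
  have h : a ≤ (a / b + 1) * b := by
    have := Nat.lt_div_mul_add (a := a) hb
    rw [Nat.add_mul, one_mul]
    exact this.le
  exact_mod_cast h

theorem gA_ge {p : ℕ} (hp : 0 < p) : (SZ : ℝ) * (1 / (p : ℝ) ^ 2 + 1 / (p : ℝ) ^ 3) ≤ gA p := by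
  have h := div_succ_ge (SZ * (p + 1)) (p * (p * p)) (by positivity)
  have hp' : (0 : ℝ) < p := by exact_mod_cast hp
  refine le_trans (le_of_eq ?_) h
  push_cast
  field_simp

theorem gB_ge {p : ℕ} (hp : 2 ≤ p) : (SZ : ℝ) * (1 / ((p : ℝ) ^ 3 * (p - 1))) ≤ gB p := by
  have h := div_succ_ge SZ (p * (p * p) * (p - 1)) (by
    have : 0 < p - 1 := by omega
    positivity)
  refine le_trans (le_of_eq ?_) h
  rw [Nat.cast_mul, Nat.cast_sub (by omega)]
  push_cast
  rw [mul_one_div]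
  congr 1
  ring

theorem WW_ge {b : Bool} {La p : ℕ} (hp : 7 ≤ p) :
    (SZ : ℝ) * ww p ≤ WW b La p + La * cst b p + SZ * (1 / (p : ℝ) ^ 2 + 1 / (p : ℝ) ^ 3) := by
  have hp' : (7 : ℝ) ≤ p := by exact_mod_cast hp
  have hp0 : (0 : ℝ) < p := by linarith
  have h := div_succ_ge (SZ * (6 * (p * p) - (9 * p + 4))) (6 * (p * (p * p))) (by positivity)
  have h1 : SZ * (6 * (p * p) - (9 * p + 4)) / (6 * (p * (p * p))) + 1 ≤ WW b La p + La * cst b p := by
    change _ ≤ (SZ * (6 * (p * p) - (9 * p + 4)) / (6 * (p * (p * p))) + 1 - La * cst b p) + La * cst b p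
    omega
  have h2 : ((SZ * (6 * (p * p) - (9 * p + 4)) / (6 * (p * (p * p))) + 1 : ℕ) : ℝ) ≤
      WW b La p + La * cst b p := by exact_mod_cast h1
  have h3 : (((SZ * (6 * (p * p) - (9 * p + 4)) : ℕ) : ℝ)) =
      SZ * (6 * (p : ℝ) ^ 2 - (9 * p + 4)) := by
    rw [Nat.cast_mul, Nat.cast_sub (by nlinarith)]
    push_cast
    ring
  have h4 := ww_cubic hp
  have h5 : (SZ : ℝ) * ww p ≤ SZ * (1 / (p : ℝ) - 1 / (2 * (p : ℝ) ^ 2) + 1 / (3 * (p : ℝ) ^ 3)) :=
    mul_le_mul_of_nonneg_left h4 (Nat.cast_nonneg _)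
  rw [h3] at h
  have h6 : (SZ : ℝ) * (6 * (p : ℝ) ^ 2 - (9 * p + 4)) / ((6 * (p * (p * p)) : ℕ) : ℝ) +
      SZ * (1 / (p : ℝ) ^ 2 + 1 / (p : ℝ) ^ 3) =
      SZ * (1 / (p : ℝ) - 1 / (2 * (p : ℝ) ^ 2) + 1 / (3 * (p : ℝ) ^ 3)) := by
    push_cast
    field_simp
    ring
  linarith

/-- the tail -/
theorem tail (c k0 : ℕ) (hc : c = 1 ∨ c = 5) (hk : 1 ≤ k0) (U : Finset ℕ)
    (hU : ∀ p ∈ U, p % 6 = c ∧ 6 * k0 ≤ p) :
    ∑ p ∈ U, (1 / (p : ℝ) ^ 2 + 1 / (p : ℝ) ^ 3) ≤ 1 / (6 * (6 * (k0 : ℝ) - 3)) := by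
  have hc1 : (1 : ℝ) ≤ c := by rcases hc with rfl | rfl <;> norm_num
  have hc5 : (c : ℝ) ≤ 5 := by rcases hc with rfl | rfl <;> norm_num
  have hk' : (1 : ℝ) ≤ k0 := by exact_mod_cast hk
  obtain ⟨f, hf⟩ : ∃ f : ℕ → ℝ, f = fun k => 1 / ((6 * k + c : ℕ) : ℝ) ^ 2 + 1 / ((6 * k + c : ℕ) : ℝ) ^ 3 :=
    ⟨_, rfl⟩
  have hstep : ∀ k : ℕ, k0 ≤ k → f k ≤ 1 / (6 * (6 * (k : ℝ) + c - 4)) - 1 / (6 * (6 * (k : ℝ) + c + 2)) := by
    intro k hk1
    have hk2 : (1 : ℝ) ≤ k := by exact_mod_cast hk.trans hk1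
    obtain ⟨y, hy⟩ : ∃ y : ℝ, y = 6 * (k : ℝ) + c := ⟨_, rfl⟩
    have hy7 : 7 ≤ y := by rw [hy]; linarith
    have h1 : f k = (y + 1) / y ^ 3 := by
      rw [hf]
      push_cast
      rw [← hy]
      field_simp
    rw [h1, ← hy]
    have h2 : 1 / (6 * (y - 4)) - 1 / (6 * (y + 2)) = 1 / ((y - 4) * (y + 2)) := by
      have h3 : y - 4 ≠ 0 := by linarith
      have h4 : y + 2 ≠ 0 := by linarith
      field_simp
      ring
    rw [h2, div_le_div_iff₀ (by positivity) (mul_pos (by linarith) (by linarith))]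
    nlinarith
  have hsum : ∀ K : ℕ, k0 ≤ K → ∑ k ∈ Finset.Ico k0 K, f k ≤
      1 / (6 * (6 * (k0 : ℝ) + c - 4)) - 1 / (6 * (6 * (K : ℝ) + c - 4)) := by
    intro K hK
    induction K, hK using Nat.le_induction with
    | base => simp
    | succ K hK ih =>
      rw [Finset.sum_Ico_succ_top hK]
      have h1 := hstep K hK
      have e : 6 * ((K : ℝ) + 1) + c - 4 = 6 * (K : ℝ) + c + 2 := by ring
      push_cast
      rw [e]
      linarith
  obtain ⟨K, hK0, hK⟩ : ∃ K : ℕ, k0 ≤ K ∧ ∀ p ∈ U, p / 6 < K := by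
    refine ⟨max k0 (U.sup id + 1), le_max_left _ _, fun p hp => ?_⟩
    have : p ≤ U.sup id := Finset.le_sup (f := id) hp
    have h2 := le_max_right k0 (U.sup id + 1)
    omega
  have h1 : ∑ p ∈ U, (1 / (p : ℝ) ^ 2 + 1 / (p : ℝ) ^ 3) = ∑ k ∈ U.image (fun p => p / 6), f k := by
    rw [Finset.sum_image]
    · refine Finset.sum_congr rfl fun p hp => ?_
      have h2 := hU p hp
      rw [hf]
      have e : 6 * (p / 6) + c = p := by omega
      simp only [e]
    · intro p hp p' hp' he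
      have h2 := hU p hp
      have h3 := hU p' hp'
      simp only at he
      omega
  rw [h1]
  have h2 : U.image (fun p => p / 6) ⊆ Finset.Ico k0 K := by
    intro k hk1
    obtain ⟨p, hp, rfl⟩ := mem_image.1 hk1
    rw [mem_Ico]
    have := hU p hp
    exact ⟨by omega, hK p hp⟩
  refine (Finset.sum_le_sum_of_subset_of_nonneg h2 fun k _ _ => ?_).trans ((hsum K hK0).trans ?_)
  · rw [hf]
    positivity
  · have h3 : (0 : ℝ) ≤ 1 / (6 * (6 * (K : ℝ) + c - 4)) := by
      have : (1 : ℝ) ≤ K := by exact_mod_cast hk.trans hK0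
      have : (0 : ℝ) < 6 * (6 * (K : ℝ) + c - 4) := by linarith
      positivity
    have h4 : 1 / (6 * (6 * (k0 : ℝ) + c - 4)) ≤ 1 / (6 * (6 * (k0 : ℝ) - 3)) :=
      one_div_le_one_div_of_le (by linarith) (by linarith)
    linarith

end Pool.Agent.EPM
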