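import Pool.Agent.Lib_MP_bed364_mp.Main

/-!
# MP_bed364_nt, many primes: the gains, and the key inequality
-/

set_option autoImplicit false

namespace Pool.Agent.EPM

open Finset Pool.Agent.EP364

/-- total gain of the primes `= 1 mod 6` below `196608` -/
def BA1 : ℕ := rs (fun k => cond (isQ (Nat.succ (Nat.mul 6 k))) (gA (Nat.succ (Nat.mul 6 k))) 0) 15 1 32767

/-- total gain of the primes `= 5 mod 6` below `24576` -/
def BA5 : ℕ := rs (fun k => cond (isQ (Nat.add (Nat.mul 6 k) 5)) (gA (Nat.add (Nat.mul 6 k) 5)) 0) 12 0 4096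

/-- the candidates `1 mod 6` -/
def P1 : Finset ℕ := (range 196608).filter fun p => p % 6 = 1 ∧ 7 ≤ p ∧ isQ p = true

/-- the candidates `5 mod 6` -/
def P5 : Finset ℕ := (range 24576).filter fun p => p % 6 = 5 ∧ isQ p = true

theorem BA1_eq : BA1 = ∑ p ∈ P1, gA p := by
  unfold BA1
  rw [rs_eq _ 15 1 32767 (by norm_num)]
  have h1 : ∀ i ∈ range 32767, cond (isQ (Nat.succ (Nat.mul 6 (1 + i)))) (gA (Nat.succ (Nat.mul 6 (1 + i)))) 0 =
      if isQ (6 * i + 7) = true then gA (6 * i + 7) else 0 := by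
    intro i _
    have e : Nat.succ (Nat.mul 6 (1 + i)) = 6 * i + 7 := by
      show 6 * (1 + i) + 1 = _
      ring
    rw [e]
    cases isQ (6 * i + 7) <;> rfl
  rw [Finset.sum_congr rfl h1, ← Finset.sum_filter]
  symm
  refine Finset.sum_bij' (fun q _ => (q - 7) / 6) (fun i _ => 6 * i + 7) ?_ ?_ ?_ ?_ ?_
  · intro q hq
    rw [P1, mem_filter, mem_range] at hq
    rw [mem_filter, mem_range]
    have e : 6 * ((q - 7) / 6) + 7 = q := by omega
    rw [e]
    exact ⟨by omega, hq.2.2.2⟩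
  · intro i hi
    rw [mem_filter, mem_range] at hi
    rw [P1, mem_filter, mem_range]
    exact ⟨by omega, by omega, by omega, hi.2⟩
  · intro q hq
    rw [P1, mem_filter, mem_range] at hq
    omega
  · intro i hi
    omega
  · intro q hq
    rw [P1, mem_filter, mem_range] at hq
    have e : 6 * ((q - 7) / 6) + 7 = q := by omega
    rw [e]

theorem BA5_eq : BA5 = ∑ p ∈ P5, gA p := by
  unfold BA5
  rw [rs_eq _ 12 0 4096 (by norm_num)]
  have h1 : ∀ i ∈ range 4096, cond (isQ (Nat.add (Nat.mul 6 (0 + i)) 5)) (gA (Nat.add (Nat.mul 6 (0 + i)) 5)) 0 =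
      if isQ (6 * i + 5) = true then gA (6 * i + 5) else 0 := by
    intro i _
    have e : Nat.add (Nat.mul 6 (0 + i)) 5 = 6 * i + 5 := by
      show 6 * (0 + i) + 5 = _
      ring
    rw [e]
    cases isQ (6 * i + 5) <;> rfl
  rw [Finset.sum_congr rfl h1, ← Finset.sum_filter]
  symm
  refine Finset.sum_bij' (fun q _ => (q - 5) / 6) (fun i _ => 6 * i + 5) ?_ ?_ ?_ ?_ ?_
  · intro q hq
    rw [P5, mem_filter, mem_range] at hq
    rw [mem_filter, mem_range]
    have e : 6 * ((q - 5) / 6) + 5 = q := by omega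
    rw [e]
    exact ⟨by omega, hq.2.2⟩
  · intro i hi
    rw [mem_filter, mem_range] at hi
    rw [P5, mem_filter, mem_range]
    exact ⟨by omega, by omega, hi.2⟩
  · intro q hq
    rw [P5, mem_filter, mem_range] at hq
    omega
  · intro i hi
    omega
  · intro q hq
    rw [P5, mem_filter, mem_range] at hq
    have e : 6 * ((q - 5) / 6) + 5 = q := by omega
    rw [e]

/-- the real gain -/
noncomputable def gR (p : ℕ) : ℝ := (SZ : ℝ) * (1 / (p : ℝ) ^ 2 + 1 / (p : ℝ) ^ 3)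

theorem gR_nonneg (p : ℕ) : 0 ≤ gR p := by
  unfold gR
  positivity

/-- the total gain of a set of primes -/
theorem gR_sum (P H : Finset ℕ) (hP : ∀ p ∈ P, p.Prime ∧ 5 ≤ p) (hH : H ⊆ P5) (hd : ∀ p ∈ P, p ∉ H) :
    ∑ p ∈ P, gR p ≤ (∑ p ∈ P1, gA p : ℕ) + ((∑ p ∈ P5 \ H, gA p : ℕ) : ℝ) + 7630237 := by
  classical
  have h6 : ∀ p ∈ P, p % 6 = 1 ∨ p % 6 = 5 := by
    intro p hp
    obtain ⟨h1, h2⟩ := hP p hp
    have h3 : p % 2 = 1 := h1.eq_two_or_odd.resolve_left (by omega)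
    have h4 : p % 3 ≠ 0 := by
      intro h5
      have := (Nat.prime_dvd_prime_iff_eq Nat.prime_three h1).1 (Nat.dvd_of_mod_eq_zero h5)
      omega
    omega
  obtain ⟨U1, hU1⟩ : ∃ U, U = P.filter fun p => p % 6 = 1 ∧ 6 * 32768 ≤ p := ⟨_, rfl⟩
  obtain ⟨U5, hU5⟩ : ∃ U, U = P.filter fun p => p % 6 = 5 ∧ 6 * 4096 ≤ p := ⟨_, rfl⟩
  have hcov : ∀ p ∈ P, gR p ≤ (if p ∈ P1 then (gA p : ℝ) else 0) +
      (if p ∈ P5 \ H then (gA p : ℝ) else 0) + (if p ∈ U1 then gR p else 0) +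
      (if p ∈ U5 then gR p else 0) := by
    intro p hp
    obtain ⟨h1, h2⟩ := hP p hp
    have hq := isQ_of_prime h1
    have hg := gA_ge (p := p) (by omega)
    have hn := gR_nonneg p
    have e1 : (0 : ℝ) ≤ (if p ∈ P1 then (gA p : ℝ) else 0) := by
      split_ifs; exacts [Nat.cast_nonneg _, le_rfl]
    have e2 : (0 : ℝ) ≤ (if p ∈ P5 \ H then (gA p : ℝ) else 0) := by
      split_ifs; exacts [Nat.cast_nonneg _, le_rfl]
    have e3 : (0 : ℝ) ≤ (if p ∈ U1 then gR p else 0) := by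
      split_ifs; exacts [hn, le_rfl]
    have e4 : (0 : ℝ) ≤ (if p ∈ U5 then gR p else 0) := by
      split_ifs; exacts [hn, le_rfl]
    rcases h6 p hp with h7 | h7
    · by_cases h8 : p < 196608
      · have h9 : p ∈ P1 := by
          rw [P1, mem_filter, mem_range]
          exact ⟨h8, h7, by omega, hq⟩
        rw [if_pos h9] at e1 ⊢
        change gR p ≤ _ at hg
        linarith
      · have h9 : p ∈ U1 := by
          rw [hU1, mem_filter]
          exact ⟨hp, h7, by omega⟩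
        rw [if_pos h9] at e3 ⊢
        linarith
    · by_cases h8 : p < 24576
      · have h9 : p ∈ P5 \ H := by
          rw [mem_sdiff, P5, mem_filter, mem_range]
          exact ⟨⟨h8, h7, hq⟩, hd p hp⟩
        rw [if_pos h9] at e2 ⊢
        change gR p ≤ _ at hg
        linarith
      · have h9 : p ∈ U5 := by
          rw [hU5, mem_filter]
          exact ⟨hp, h7, by omega⟩
        rw [if_pos h9] at e4 ⊢
        linarith
  refine (Finset.sum_le_sum hcov).trans ?_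
  rw [Finset.sum_add_distrib, Finset.sum_add_distrib, Finset.sum_add_distrib]
  have hind : ∀ (S : Finset ℕ) (f : ℕ → ℝ), (∀ p, 0 ≤ f p) →
      ∑ p ∈ P, (if p ∈ S then f p else 0) ≤ ∑ p ∈ S, f p := by
    intro S f hf
    rw [← Finset.sum_filter]
    exact Finset.sum_le_sum_of_subset_of_nonneg (fun p hp => (mem_filter.1 hp).2) fun p _ _ => hf p
  have b1 := hind P1 (fun p => (gA p : ℝ)) fun p => Nat.cast_nonneg _
  have b2 := hind (P5 \ H) (fun p => (gA p : ℝ)) fun p => Nat.cast_nonneg _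
  have b3 := hind U1 gR gR_nonneg
  have b4 := hind U5 gR gR_nonneg
  have t1 : ∑ p ∈ U1, gR p ≤ 847724 := by
    unfold gR
    rw [← Finset.mul_sum]
    have h1 := tail 1 32768 (Or.inl rfl) (by norm_num) U1 (fun p hp => by
      rw [hU1, mem_filter] at hp
      exact hp.2)
    refine (mul_le_mul_of_nonneg_left h1 (Nat.cast_nonneg _)).trans ?_
    rw [SZ_cast]
    norm_num
  have t5 : ∑ p ∈ U5, gR p ≤ 6782513 := by
    unfold gR
    rw [← Finset.mul_sum]
    have h1 := tail 5 4096 (Or.inr rfl) (by norm_num) U5 (fun p hp => by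
      rw [hU5, mem_filter] at hp
      exact hp.2)
    refine (mul_le_mul_of_nonneg_left h1 (Nat.cast_nonneg _)).trans ?_
    rw [SZ_cast]
    norm_num
  push_cast
  linarith

theorem TT_facts {n t : ℕ} (h3 : ¬ 3 ∣ n) (ht : t ∈ TT n) : t.Prime ∧ 5 ≤ t := TT_ge h3 ht

/-- all gains together -/
theorem gains {n : ℕ} (hn : n ≠ 0) (h3 : ¬ 3 ∣ n) (h : sigE n = 2 * n) (H : Finset ℕ)
    (hH : ∀ t ∈ H, t ∈ P5 ∧ gB t ≤ gA t) :
    ∑ p ∈ AA n, gR p + (SZ : ℝ) * ∑ t ∈ TT n, gn t (n.factorization t) + (∑ t ∈ H, gD t : ℕ) ≤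
      ((BA1 + BA5 + 7630237 : ℕ) : ℝ) +
      (∑ t ∈ H.filter (fun t => t ∈ TT n ∧ n.factorization t ≤ 4), gD t : ℕ) := by
  classical
  have hmodH : ∀ t ∈ H, t % 6 = 5 := by
    intro t ht
    have := (hH t ht).1
    rw [P5, mem_filter] at this
    exact this.2.1
  -- termwise
  have h1 : ∀ t ∈ TT n, (SZ : ℝ) * gn t (n.factorization t) ≤
      (if t ∈ H then ((gB t : ℝ) + (if n.factorization t ≤ 4 then (gD t : ℝ) else 0)) else gR t) := by
    intro t ht
    obtain ⟨h4, h5⟩ := TT_facts h3 ht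
    have h6 := (mem_TT.1 ht).2.2
    have hle : (SZ : ℝ) * gn t (n.factorization t) ≤ gR t :=
      mul_le_mul_of_nonneg_left (gn_three h4.two_le h6) (Nat.cast_nonneg _)
    split_ifs with h7 h8
    · have h9 := gA_ge (p := t) (by omega)
      change gR t ≤ _ at h9
      have h10 : gA t ≤ gB t + gD t := by
        change gA t ≤ gB t + (gA t - gB t)
        omega
      have h11 : (gA t : ℝ) ≤ gB t + gD t := by exact_mod_cast h10
      linarith
    · have h9 := gB_ge (p := t) h4.two_le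
      have h10 := hmodH t h7
      have h11 := ne_six hn h3 h ht (by omega)
      have h12 := gn_five h4.two_le (a := n.factorization t) (by omega) h11
      have h13 : (SZ : ℝ) * gn t (n.factorization t) ≤ (SZ : ℝ) * (1 / ((t : ℝ) ^ 3 * (t - 1))) :=
        mul_le_mul_of_nonneg_left h12 (Nat.cast_nonneg _)
      linarith
    · exact hle
  have h2 : (SZ : ℝ) * ∑ t ∈ TT n, gn t (n.factorization t) ≤
      ∑ t ∈ H, (gB t : ℝ) + (∑ t ∈ H.filter (fun t => t ∈ TT n ∧ n.factorization t ≤ 4), (gD t : ℝ)) +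
      ∑ t ∈ (TT n).filter (fun t => t ∉ H), gR t := by
    rw [Finset.mul_sum]
    refine (Finset.sum_le_sum h1).trans ?_
    rw [← Finset.sum_filter_add_sum_filter_not (TT n) (fun t => t ∈ H)]
    have e1 : ∑ t ∈ (TT n).filter (fun t => t ∈ H), (if t ∈ H then ((gB t : ℝ) +
        (if n.factorization t ≤ 4 then (gD t : ℝ) else 0)) else gR t) =
        ∑ t ∈ (TT n).filter (fun t => t ∈ H), (gB t : ℝ) +
        ∑ t ∈ (TT n).filter (fun t => t ∈ H), (if n.factorization t ≤ 4 then (gD t : ℝ) else 0) := by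
      rw [← Finset.sum_add_distrib]
      exact Finset.sum_congr rfl fun t ht => if_pos (mem_filter.1 ht).2
    have e2 : ∑ t ∈ (TT n).filter (fun t => ¬ t ∈ H), (if t ∈ H then ((gB t : ℝ) +
        (if n.factorization t ≤ 4 then (gD t : ℝ) else 0)) else gR t) =
        ∑ t ∈ (TT n).filter (fun t => t ∉ H), gR t :=
      Finset.sum_congr rfl fun t ht => if_neg (mem_filter.1 ht).2
    have e3 : ∑ t ∈ (TT n).filter (fun t => t ∈ H), (gB t : ℝ) ≤ ∑ t ∈ H, (gB t : ℝ) :=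
      Finset.sum_le_sum_of_subset_of_nonneg (fun t ht => (mem_filter.1 ht).2)
        fun t _ _ => Nat.cast_nonneg _
    have e4 : ∑ t ∈ (TT n).filter (fun t => t ∈ H), (if n.factorization t ≤ 4 then (gD t : ℝ) else 0) ≤
        ∑ t ∈ H.filter (fun t => t ∈ TT n ∧ n.factorization t ≤ 4), (gD t : ℝ) := by
      rw [← Finset.sum_filter, Finset.filter_filter]
      refine Finset.sum_le_sum_of_subset_of_nonneg (fun t ht => ?_) fun t _ _ => Nat.cast_nonneg _
      rw [mem_filter] at ht ⊢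
      exact ⟨ht.2.1, ht.1, ht.2.2⟩
    rw [e1, e2]
    linarith
  -- the set outside of `H`
  have hdis : Disjoint (AA n) ((TT n).filter fun t => t ∉ H) := by
    rw [Finset.disjoint_left]
    intro p hp hp2
    have h4 := (mem_AA.1 hp).2.2
    have h5 := (mem_TT.1 (mem_filter.1 hp2).1).2.2
    omega
  have h4 := gR_sum (AA n ∪ (TT n).filter fun t => t ∉ H) H ?_ (fun t ht => (hH t ht).1) ?_
  · rw [Finset.sum_union hdis] at h4
    have h5 : ∑ p ∈ P5 \ H, gA p + ∑ t ∈ H, gA t = ∑ p ∈ P5, gA p :=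
      Finset.sum_sdiff fun t ht => (hH t ht).1
    have h6 : ∑ t ∈ H, gB t + ∑ t ∈ H, gD t = ∑ t ∈ H, gA t := by
      rw [← Finset.sum_add_distrib]
      refine Finset.sum_congr rfl fun t ht => ?_
      have := (hH t ht).2
      change gB t + (gA t - gB t) = gA t
      omega
    have h5' : ((∑ p ∈ P5 \ H, gA p : ℕ) : ℝ) + ((∑ t ∈ H, gA t : ℕ) : ℝ) =
        ((∑ p ∈ P5, gA p : ℕ) : ℝ) := by exact_mod_cast h5
    have h6' : ((∑ t ∈ H, gB t : ℕ) : ℝ) + ((∑ t ∈ H, gD t : ℕ) : ℝ) =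
        ((∑ t ∈ H, gA t : ℕ) : ℝ) := by exact_mod_cast h6
    rw [BA1_eq, BA5_eq]
    push_cast at h2 h4 h5' h6' ⊢
    linarith
  · intro p hp
    rcases mem_union.1 hp with h5 | h5
    · have h6 := AA_facts hn h3 h h5
      exact ⟨h6.1, by omega⟩
    · exact TT_facts h3 (mem_filter.1 h5).1
  · intro p hp hpH
    rcases mem_union.1 hp with h5 | h5
    · have h6 := (AA_facts hn h3 h h5).2.1
      have h7 := hmodH p hpH
      omega
    · exact (mem_filter.1 h5).2 hpH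

/-- the total of a data set -/
def tot (b : Bool) (La : ℕ) (FL EL HL : List (ℕ × ℕ)) : ℕ :=
  Nat.add (Nat.add (ls (fun x => Nat.add (WW b La x.1) x.2) FL) (Nat.mul 3 (ls (fun x => x.2) EL)))
    (Nat.add (UU b La FL (FL ++ EL)) (ls (exc b La FL (FL ++ EL) HL) HL))

/-- the key inequality -/
theorem key {n : ℕ} (hn : n ≠ 0) (h3 : ¬ 3 ∣ n) (h : sigE n = 2 * n) {b : Bool} {La : ℕ}
    {FL EL HL : List (ℕ × ℕ)} (D : Dat b La FL EL HL) (c5 : Bool)
    (hE : ∀ x ∈ EL, x.1 ∈ TT n ∧ n.factorization x.1 ≤ 4)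
    (h5 : c5 = true → ¬ (5 ∈ TT n ∧ n.factorization 5 ≤ 4)) :
    (SZ : ℝ) * Real.log 2 + (ls (fun x => hh (FL ++ EL) x.1) FL : ℕ) + (ls (fun x => gD x.1) HL : ℕ) +
      (cond c5 (gD 5) 0 : ℕ) ≤
    (SZ : ℝ) * rho (n.factorization 2) + La * (∑ p ∈ AA n, cst b p : ℕ) +
      (BA1 + BA5 + 7630237 + tot b La FL EL HL : ℕ) := by
  classical
  have nH : HL.Nodup := D.nodH.of_map
  obtain ⟨H0, hH0⟩ : ∃ H0, H0 = HL.toFinset.image Prod.fst := ⟨_, rfl⟩
  have hinj : Set.InjOn Prod.fst (HL.toFinset : Set (ℕ × ℕ)) := fun x hx y hy hxy =>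
    inj_of_nodup D.nodH x (Finset.mem_coe.1 hx) y (Finset.mem_coe.1 hy) hxy
  have h50 : 5 ∉ H0 := by
    rw [hH0, mem_image]
    rintro ⟨x, hx, hx5⟩
    have := (D.modH x (List.mem_toFinset.1 hx)).2.1
    omega
  have h5P : 5 ∈ P5 ∧ gB 5 ≤ gA 5 := by
    refine ⟨?_, ?_⟩
    · rw [P5, mem_filter, mem_range]
      exact ⟨by norm_num, by norm_num, isQ_of_prime Nat.prime_five⟩
    · decide +kernel
  have hH0P : ∀ t ∈ H0, t ∈ P5 ∧ gB t ≤ gA t := by
    intro t ht
    rw [hH0, mem_image] at ht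
    obtain ⟨x, hx, rfl⟩ := ht
    obtain ⟨h6, h7, h8, h9, h10⟩ := D.modH x (List.mem_toFinset.1 hx)
    refine ⟨?_, h10⟩
    rw [P5, mem_filter, mem_range]
    exact ⟨h8, h6, h9⟩
  have hsum0 : ∑ t ∈ H0, gD t = ls (fun x => gD x.1) HL := by
    rw [hH0, Finset.sum_image hinj, ls_eq _ _ nH]
  have hfil0 : ∑ t ∈ H0.filter (fun t => t ∈ TT n ∧ n.factorization t ≤ 4), gD t =
      ∑ x ∈ HL.toFinset.filter (fun x => x.1 ∈ TT n ∧ n.factorization x.1 ≤ 4), gD x.1 := by
    rw [hH0, Finset.filter_image, Finset.sum_image]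
    intro x hx y hy hxy
    exact hinj (Finset.mem_coe.2 (mem_filter.1 (Finset.mem_coe.1 hx)).1)
      (Finset.mem_coe.2 (mem_filter.1 (Finset.mem_coe.1 hy)).1) hxy
  -- the gains for the right set
  have hg : ∑ p ∈ AA n, gR p + (SZ : ℝ) * ∑ t ∈ TT n, gn t (n.factorization t) +
      (ls (fun x => gD x.1) HL : ℕ) + (cond c5 (gD 5) 0 : ℕ) ≤ ((BA1 + BA5 + 7630237 : ℕ) : ℝ) +
      (∑ x ∈ HL.toFinset.filter (fun x => x.1 ∈ TT n ∧ n.factorization x.1 ≤ 4), gD x.1 : ℕ) := by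
    cases c5 with
    | false =>
      have h6 := gains hn h3 h H0 hH0P
      rw [hsum0, hfil0] at h6
      rw [cond_false, Nat.cast_zero, add_zero]
      exact h6
    | true =>
      have h6 := gains hn h3 h (insert 5 H0) (fun t ht => by
        rcases mem_insert.1 ht with rfl | ht
        · exact h5P
        · exact hH0P t ht)
      rw [Finset.sum_insert h50, hsum0, Finset.filter_insert, if_neg (h5 rfl), hfil0] at h6
      rw [cond_true]
      push_cast at h6 ⊢
      linarith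
  -- the weights
  have hw : (SZ : ℝ) * ∑ p ∈ AA n, ww p ≤ (∑ q ∈ AA n, WW b La q : ℕ) +
      La * (∑ p ∈ AA n, cst b p : ℕ) + ∑ p ∈ AA n, gR p := by
    rw [Finset.mul_sum]
    push_cast
    rw [Finset.mul_sum, ← Finset.sum_add_distrib, ← Finset.sum_add_distrib]
    refine Finset.sum_le_sum fun p hp => ?_
    exact WW_ge (AA_facts hn h3 h hp).2.2
  have hc := comb_nat hn h3 h D hE
  have hc' : ((∑ q ∈ AA n, WW b La q : ℕ) : ℝ) +
      ((∑ x ∈ HL.toFinset.filter (fun x => x.1 ∈ TT n ∧ n.factorization x.1 ≤ 4), gD x.1 : ℕ) : ℝ) +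
      ((ls (fun x => hh (FL ++ EL) x.1) FL : ℕ) : ℝ) ≤ ((tot b La FL EL HL : ℕ) : ℝ) := by
    have h6 : tot b La FL EL HL = ls (fun x => WW b La x.1 + x.2) FL + 3 * ls (fun x => x.2) EL +
        (UU b La FL (FL ++ EL) + ls (exc b La FL (FL ++ EL) HL) HL) := rfl
    rw [h6, ← add_assoc]
    exact_mod_cast hc
  have hl := log_eq hn h
  rw [hl, mul_add, mul_add]
  push_cast at hg hw hc' ⊢
  linarith

end Pool.Agent.EPM
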