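import Pool.Agent.Lib_MP_bed364_mp.Split

/-!
# MP_bed364_nt, many primes: the lists of the data set A0
-/

set_option autoImplicit false
set_option maxRecDepth 100000

namespace Pool.Agent.EPM

/-- data -/
def FA0 : List (ℕ × ℕ) := [(7, 7109060637), (13, 1739409257), (19, 6549236337), (31, 1604291273), (37, 1343131679), (43, 204094118), (61, 504863501), (67, 154919147), (73, 163918204), (79, 1573716082), (103, 80957358), (109, 176169390), (127, 91120352), (157, 191724757), (163, 299401343), (193, 96321572), (199, 149722837), (211, 229638714), (229, 538402119), (241, 37800915), (271, 177184809), (277, 37825337), (283, 73005160), (313, 56595723), (331, 370272055), (367, 77846238), (373, 53629171), (397, 49945901), (409, 114941913), (421, 46682565), (439, 277397443), (457, 20051925), (463, 12334602), (487, 56866320), (499, 22170273), (523, 36154645), (541, 19882409), (547, 84103500), (577, 7640427), (613, 25325897), (661, 68340105), (673, 14551000), (691, 173580874), (709, 713817), (733, 12762396), (751, 19330805), (757, 33980523), (787, 32406964)]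

/-- data -/
def EA0 : List (ℕ × ℕ) := []

/-- data -/
def GA0 : List (ℕ × ℕ) := [(11, 762818033), (17, 580761741), (23, 455127457), (29, 246217509), (41, 269823397), (71, 142523948), (83, 293859385), (89, 236930023)]

end Pool.Agent.EPM
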