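import Pool.Agent.Lib_MP_bed364_mp.DmA0

/-!
# MP_bed364_nt, many primes: the lists of the data set A1
-/

set_option autoImplicit false
set_option maxRecDepth 100000

namespace Pool.Agent.EPM

/-- data -/
def FA1 : List (ℕ × ℕ) := [(7, 7106060637), (13, 1736409257), (19, 6541086337), (31, 1601291273), (37, 1340131679), (43, 206244118), (61, 486413501), (67, 151919147), (73, 150618204), (79, 1565566082), (103, 83107358), (109, 178319390), (127, 77820352), (157, 173274757), (163, 296401343), (193, 98471572), (199, 131272837), (211, 226638714), (229, 530252119), (241, 34800915), (271, 174184809), (277, 27668629), (283, 70005160), (313, 58745723), (331, 362122055), (367, 59396238), (373, 50629171), (397, 46945901), (409, 111941913), (421, 43682565), (439, 269247443), (457, 13484325), (463, 6397477), (487, 38416320), (499, 19170273), (523, 33154645), (541, 16882409), (547, 81103500), (577, 4640427), (613, 27475897), (661, 65340105), (673, 11551000), (691, 165430874), (709, 0), (733, 9762396), (751, 21480805), (757, 15530523), (787, 13956964)]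

/-- data -/
def EA1 : List (ℕ × ℕ) := []

/-- data -/
def GA1 : List (ℕ × ℕ) := [(11, 764968033), (17, 577761741), (23, 457277457), (29, 238067509), (41, 261673397), (71, 144588398), (83, 285709385), (89, 239080023)]

end Pool.Agent.EPM
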