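import Pool.Agent.Lib_MP_bed364_mp.Split

/-!
# MP_bed364_nt, many primes: the lists of the data set B0
-/

set_option autoImplicit false
set_option maxRecDepth 100000

namespace Pool.Agent.EPM

/-- data -/
def FB0 : List (ℕ × ℕ) := [(7, 5070913034), (13, 1739409257), (19, 6549236337), (31, 1000253683), (37, 606761345), (43, 174369527), (61, 504863501), (67, 154919147), (73, 99714819), (79, 1573716082), (103, 68546638), (109, 44825415), (127, 21648170), (157, 191724757), (163, 82916067), (193, 22139041), (211, 100406390), (241, 14770915), (271, 76560958), (277, 14712615), (283, 14245921), (313, 39682547), (331, 370272055), (367, 77846238), (373, 13644822), (397, 49945901), (421, 27630228), (457, 16484325), (463, 5869593), (487, 5220582), (523, 7637748), (541, 19882409), (547, 1323330), (577, 7640427), (613, 0), (661, 9143989), (673, 14551000), (691, 173580874), (733, 12762396), (751, 0), (757, 4087902), (787, 3653804)]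

/-- data -/
def EB0 : List (ℕ × ℕ) := [(5, 4330853141)]

/-- data -/
def GB0 : List (ℕ × ℕ) := [(11, 762818033), (17, 547484522), (23, 402787968), (29, 246217509), (41, 269823397), (71, 142523948), (83, 81285727), (89, 129714448)]

end Pool.Agent.EPM
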