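import Pool.Agent.Lib_MP_bed364_mp.DmB0

/-!
# MP_bed364_nt, many primes: the lists of the data set B1
-/

set_option autoImplicit false
set_option maxRecDepth 100000

namespace Pool.Agent.EPM

/-- data -/
def FB1 : List (ℕ × ℕ) := [(7, 5071988034), (13, 1736409257), (19, 6541086337), (31, 981803683), (37, 603761345), (43, 150769527), (61, 486413501), (67, 151919147), (73, 76114819), (79, 1565566082), (103, 44946638), (109, 31525415), (127, 17425025), (157, 173274757), (163, 79916067), (193, 21557620), (211, 97406390), (241, 11996043), (271, 73560958), (277, 11712615), (283, 11245921), (313, 36682547), (331, 362122055), (367, 59396238), (373, 3960353), (397, 46945901), (421, 24630228), (457, 13484325), (463, 2869593), (487, 5434420), (523, 0), (541, 16882409), (547, 0), (577, 4640427), (613, 718047), (661, 6143989), (673, 11551000), (691, 165430874), (733, 9762396), (751, 0), (757, 1659277), (787, 653804)]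

/-- data -/
def EB1 : List (ℕ × ℕ) := [(5, 4333003141)]

/-- data -/
def GB1 : List (ℕ × ℕ) := [(11, 764968033), (17, 549634522), (23, 404937968), (29, 238067509), (41, 261673397), (71, 144588398), (83, 73135727), (89, 131864448)]

end Pool.Agent.EPM
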