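import Pool.Agent.Lib_MP_bed364_mp.Gain

/-!
# MP_bed364_nt, many primes: the main inequality
-/

set_option autoImplicit false

namespace Pool.Agent.EPM

open Finset Pool.Agent.EP364

/-- conditions on the data -/
structure Dat (b : Bool) (La : ℕ) (FL EL HL : List (ℕ × ℕ)) : Prop where
  La_ge : 5086264 ≤ La
  nodF : (FL.map Prod.fst).Nodup
  nodH : (HL.map Prod.fst).Nodup
  nodE : EL.Nodup
  modF : ∀ x ∈ FL, x.1 % 6 = 1 ∧ 7 ≤ x.1 ∧ x.1 ≤ 1000
  modH : ∀ x ∈ HL, x.1 % 6 = 5 ∧ 7 ≤ x.1 ∧ x.1 < 24576 ∧ isQ x.1 = true ∧ gB x.1 ≤ gA x.1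
  dm : ∀ x ∈ FL, dom b La FL (FL ++ EL) x = true

theorem inj_of_nodup {L : List (ℕ × ℕ)} (h : (L.map Prod.fst).Nodup) :
    ∀ x ∈ L.toFinset, ∀ y ∈ L.toFinset, x.1 = y.1 → x = y := by
  intro x hx y hy hxy
  exact List.inj_on_of_nodup_map h (List.mem_toFinset.1 hx) (List.mem_toFinset.1 hy) hxy

theorem AA_facts {n p : ℕ} (hn : n ≠ 0) (h3 : ¬ 3 ∣ n) (h : sigE n = 2 * n) (hp : p ∈ AA n) :
    p.Prime ∧ p % 6 = 1 ∧ 7 ≤ p := by
  have h1 := AA_mod hn h3 h hp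
  obtain ⟨h2, h4, _⟩ := mem_AA.1 hp
  have h5 : p % 2 = 1 := h2.eq_two_or_odd.resolve_left h4
  have h6 : p ≠ 1 := h2.one_lt.ne'
  refine ⟨h2, by omega, ?_⟩
  omega

theorem hit_le {n t : ℕ} (hn : n ≠ 0) (h : sigE n = 2 * n) (htp : t.Prime) (ht2 : t ≠ 2)
    (ht : t ∈ n.primeFactors) (A' : Finset ℕ) (hA' : A' ⊆ AA n) :
    ∑ q ∈ A', vv t q + 1 ≤ n.factorization t := by
  refine le_trans (Nat.add_le_add_right ?_ 1) (hits hn h htp ht2 ht)
  refine (Finset.sum_le_sum fun q _ => vv_le htp).trans ?_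
  exact Finset.sum_le_sum_of_subset hA'

theorem comb_nat {n : ℕ} (hn : n ≠ 0) (h3 : ¬ 3 ∣ n) (h : sigE n = 2 * n) {b : Bool} {La : ℕ}
    {FL EL HL : List (ℕ × ℕ)} (D : Dat b La FL EL HL)
    (hE : ∀ x ∈ EL, x.1 ∈ TT n ∧ n.factorization x.1 ≤ 4) :
    ∑ q ∈ AA n, WW b La q +
      ∑ x ∈ HL.toFinset.filter (fun x => x.1 ∈ TT n ∧ n.factorization x.1 ≤ 4), gD x.1 +
      ls (fun x => hh (FL ++ EL) x.1) FL ≤
    ls (fun x => WW b La x.1 + x.2) FL + 3 * ls (fun x => x.2) EL + UU b La FL (FL ++ EL) +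
      ls (exc b La FL (FL ++ EL) HL) HL := by
  classical
  have nF : FL.Nodup := D.nodF.of_map
  have nH : HL.Nodup := D.nodH.of_map
  obtain ⟨HS, hHS⟩ : ∃ HS, HS = HL.toFinset.filter (fun x => x.1 ∈ TT n ∧ n.factorization x.1 ≤ 4) :=
    ⟨_, rfl⟩
  rw [← hHS]
  have hhZ : ∀ q, hZ FL.toFinset EL.toFinset (fun r q => (vv r q : ℤ)) q = (hh (FL ++ EL) q : ℤ) := by
    intro q
    unfold hZ hh
    rw [ls_append, ls_eq _ _ nF, ls_eq _ _ D.nodE]
    push_cast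
    rfl
  have huZ : ∀ q, uZ FL.toFinset EL.toFinset (fun q => (WW b La q : ℤ)) (fun r q => (vv r q : ℤ)) q =
      (uu b La (FL ++ EL) q : ℤ) := by
    intro q
    unfold uZ
    rw [hhZ]
    change max ((WW b La q : ℤ) - (hh (FL ++ EL) q : ℤ)) 0 = ((WW b La q - hh (FL ++ EL) q : ℕ) : ℤ)
    omega
  have hodd : ∀ q ∈ AA n, q % 2 = 1 := fun q hq => by
    have := (AA_facts hn h3 h hq).2.1
    omega
  -- the primes below the bound
  obtain ⟨A', hA'⟩ : ∃ A', A' = (AA n).filter fun q => q < 196608 := ⟨_, rfl⟩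
  have hsub : A' ⊆ AA n := by rw [hA']; exact Finset.filter_subset _ _
  have hsumA : ∑ q ∈ AA n, WW b La q = ∑ q ∈ A', WW b La q := by
    rw [hA', Finset.sum_filter]
    refine Finset.sum_congr rfl fun q hq => ?_
    split_ifs with h1
    · rfl
    · exact WW_zero D.La_ge (by omega) (hodd q hq)
  have hv0 : ∀ r q : ℕ, ¬ r ∣ q + 1 → (vv r q : ℤ) = 0 := by
    intro r q hr
    rw [vv_eq, if_neg hr]
    rfl
  have hW0 : ∀ q, WW b La q = 0 → uu b La (FL ++ EL) q = 0 := by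
    intro q hq
    change WW b La q - hh (FL ++ EL) q = 0
    rw [hq, Nat.zero_sub]
  have hmain := comb FL.toFinset EL.toFinset HS (fun q => (WW b La q : ℤ)) (fun r q => (vv r q : ℤ))
    A' (XX FL) (fun q => Int.natCast_nonneg _) (fun r q => Int.natCast_nonneg _) hv0
    (inj_of_nodup D.nodF) ?_ ?_ ?_ ?_ (fun t q => t ∣ q + 1 ∧ fst HL t q = true) ?_ ?_ ?_
  · simp only [hhZ, huZ] at hmain
    -- classes
    have hcl : ∑ x ∈ HS, (gD x.1 : ℤ) + ∑ x ∈ HS, (3 * (x.2 : ℤ) +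
        ∑ q ∈ (XX FL).filter (fun q => x.1 ∣ q + 1), max ((uu b La (FL ++ EL) q : ℤ) - x.2) 0 -
        ∑ q ∈ (XX FL).filter (fun q => x.1 ∣ q + 1 ∧ (x.1 ∣ q + 1 ∧ fst HL x.1 q = true)),
          (uu b La (FL ++ EL) q : ℤ)) ≤ ((ls (exc b La FL (FL ++ EL) HL) HL : ℕ) : ℤ) := by
      rw [ls_eq _ _ nH, ← Finset.sum_add_distrib]
      push_cast
      refine le_trans (Finset.sum_le_sum fun x hx => ?_)
        (Finset.sum_le_sum_of_subset_of_nonneg (by rw [hHS]; exact Finset.filter_subset _ _)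
          fun x _ _ => Int.natCast_nonneg _)
      rw [hHS, mem_filter, List.mem_toFinset] at hx
      obtain ⟨hm1, hm2, _, _, _⟩ := D.modH x hx.1
      have e1 : ∑ q ∈ (XX FL).filter (fun q => x.1 ∣ q + 1), max ((uu b La (FL ++ EL) q : ℤ) - x.2) 0 =
          ((MM b La FL (fun q => Nat.sub (uu b La (FL ++ EL) q) x.2) x.1 4 : ℕ) : ℤ) := by
        rw [MM_eq b La D.La_ge FL _ x.1 4 (Or.inr ⟨hm1, rfl⟩) (by omega) (fun q hq => by
          rw [hW0 q hq]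
          exact Nat.zero_sub _)]
        push_cast
        refine Finset.sum_congr rfl fun q _ => ?_
        change _ = ((uu b La (FL ++ EL) q - x.2 : ℕ) : ℤ)
        omega
      have e2 : ∑ q ∈ (XX FL).filter (fun q => x.1 ∣ q + 1 ∧ (x.1 ∣ q + 1 ∧ fst HL x.1 q = true)),
          (uu b La (FL ++ EL) q : ℤ) =
          ((MM b La FL (fun q => cond (fst HL x.1 q) (uu b La (FL ++ EL) q) 0) x.1 4 : ℕ) : ℤ) := by
        rw [MM_eq b La D.La_ge FL _ x.1 4 (Or.inr ⟨hm1, rfl⟩) (by omega) (fun q hq => by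
          rw [hW0 q hq]
          cases fst HL x.1 q <;> rfl)]
        push_cast
        rw [Finset.sum_filter, Finset.sum_filter]
        refine Finset.sum_congr rfl fun q _ => ?_
        by_cases h1 : x.1 ∣ q + 1
        · rw [if_pos h1]
          cases h2 : fst HL x.1 q
          · rw [if_neg (by simp), cond_false]
            rfl
          · rw [if_pos ⟨h1, h1, rfl⟩, cond_true]
        · rw [if_neg h1, if_neg (fun h2 => h1 h2.1)]
      rw [e1, e2]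
      change (gD x.1 : ℤ) + (3 * (x.2 : ℤ) + _ - _) ≤ ((gD x.1 + 3 * x.2 +
        MM b La FL (fun q => Nat.sub (uu b La (FL ++ EL) q) x.2) x.1 4 -
        MM b La FL (fun q => cond (fst HL x.1 q) (uu b La (FL ++ EL) q) 0) x.1 4 : ℕ) : ℤ)
      omega
    have e3 : ((ls (fun x => hh (FL ++ EL) x.1) FL : ℕ) : ℤ) =
        ∑ x ∈ FL.toFinset, (hh (FL ++ EL) x.1 : ℤ) := by
      rw [ls_eq _ _ nF]
      push_cast
      rfl
    have e4 : ((ls (fun x => WW b La x.1 + x.2) FL : ℕ) : ℤ) =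
        ∑ x ∈ FL.toFinset, ((WW b La x.1 : ℤ) + (x.2 : ℤ)) := by
      rw [ls_eq _ _ nF]
      push_cast
      rfl
    have e5 : ((ls (fun x => x.2) EL : ℕ) : ℤ) = ∑ x ∈ EL.toFinset, (x.2 : ℤ) := by
      rw [ls_eq _ _ D.nodE]
      push_cast
      rfl
    have e6 : ((UU b La FL (FL ++ EL) : ℕ) : ℤ) = ∑ q ∈ XX FL, (uu b La (FL ++ EL) q : ℤ) := by
      rw [UU_eq]
      push_cast
      rfl
    have hfin : (∑ q ∈ A', (WW b La q : ℤ)) + ∑ x ∈ HS, (gD x.1 : ℤ) +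
        ((ls (fun x => hh (FL ++ EL) x.1) FL : ℕ) : ℤ) ≤
        ((ls (fun x => WW b La x.1 + x.2) FL : ℕ) : ℤ) + 3 * ((ls (fun x => x.2) EL : ℕ) : ℤ) +
          ((UU b La FL (FL ++ EL) : ℕ) : ℤ) + ((ls (exc b La FL (FL ++ EL) HL) HL : ℕ) : ℤ) := by
      rw [e3, e4, e5, e6]
      linarith
    rw [hsumA]
    have hfin2 : ((∑ q ∈ A', WW b La q + ∑ x ∈ HS, gD x.1 + ls (fun x => hh (FL ++ EL) x.1) FL : ℕ) : ℤ) ≤
        ((ls (fun x => WW b La x.1 + x.2) FL + 3 * ls (fun x => x.2) EL + UU b La FL (FL ++ EL) +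
          ls (exc b La FL (FL ++ EL) HL) HL : ℕ) : ℤ) := by
      push_cast
      exact hfin
    exact_mod_cast hfin2
  · -- hA
    intro q hq
    rw [hA', mem_filter] at hq
    obtain ⟨hqp, hq6, hq7⟩ := AA_facts hn h3 h hq.1
    by_cases hm : mem FL q = true
    · right
      obtain ⟨x, hx, hxq⟩ := (mem_iff FL q).1 hm
      exact ⟨x, List.mem_toFinset.2 hx, hxq⟩
    · left
      rw [XX, mem_filter, mem_range]
      refine ⟨hq.2, hq6, hq7, ?_⟩
      unfold isX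
      rw [isQ_of_prime hqp, Bool.true_and]
      rw [Bool.not_eq_true] at hm
      rw [hm, Bool.and_false]
      rfl
  · -- hX
    intro x hx hxX
    rw [List.mem_toFinset] at hx
    rw [XX, mem_filter] at hxX
    have h1 := hxX.2.2.2
    unfold isX at h1
    have h2 : mem FL x.1 = true := (mem_iff FL x.1).2 ⟨x, hx, rfl⟩
    have h4 : Nat.ble x.1 1000 = true := ble_iff.2 (D.modF x hx).2.2
    rw [h2, h4] at h1
    simp at h1
  · -- hF
    intro x hx hxA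
    have h1 := hsub hxA
    obtain ⟨h2, h4, h5⟩ := mem_AA.1 h1
    have h6 := hit_le hn h h2 h4 (mem_filter.1 h1).1 A' hsub
    rw [h5] at h6
    have h7 : ∑ q ∈ A', vv x.1 q ≤ 1 := by omega
    exact_mod_cast h7
  · -- hE
    intro x hx
    rw [List.mem_toFinset] at hx
    obtain ⟨h1, h2⟩ := hE x hx
    obtain ⟨h4, h5, _⟩ := mem_TT.1 h1
    have h6 := hit_le hn h h4 h5 (mem_filter.1 h1).1 A' hsub
    have h7 : ∑ q ∈ A', vv x.1 q ≤ 3 := by omega
    exact_mod_cast h7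
  · -- hfs
    intro q x hx y hy hxq hyq
    rw [hHS, mem_filter] at hx hy
    exact inj_of_nodup D.nodH x hx.1 y hy.1 (fst_unique HL q x.1 y.1 hxq.2 hyq.2 hxq.1 hyq.1)
  · -- hH
    intro x hx
    rw [hHS, mem_filter] at hx
    obtain ⟨_, h1, h2⟩ := hx
    obtain ⟨h4, h5, _⟩ := mem_TT.1 h1
    have h6 := hit_le hn h h4 h5 (mem_filter.1 h1).1 A' hsub
    have h7 : (A'.filter fun q => x.1 ∣ q + 1).card ≤ ∑ q ∈ A', vv x.1 q := by
      rw [Finset.card_eq_sum_ones, Finset.sum_filter]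
      refine Finset.sum_le_sum fun q _ => ?_
      rw [vv_eq]
      split_ifs <;> omega
    omega
  · -- hdom
    intro x hx
    rw [List.mem_toFinset] at hx
    have h1 := D.dm x hx
    have h2 : MM b La FL (WW b La) x.1 2 + (hh (FL ++ EL) x.1 + x.2 * ls (fun y => vv x.1 y.1) FL) ≤
        WW b La x.1 + x.2 := ble_iff.1 h1
    obtain ⟨hm1, hm2, _⟩ := D.modF x hx
    rw [MM_eq b La D.La_ge FL _ x.1 2 (Or.inl ⟨hm1, rfl⟩) (by omega) (fun q hq => hq),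
      ls_eq _ _ nF] at h2
    rw [hhZ]
    have h4 : ((∑ q ∈ (XX FL).filter (fun q => x.1 ∣ q + 1), WW b La q +
        (hh (FL ++ EL) x.1 + x.2 * ∑ y ∈ FL.toFinset, vv x.1 y.1) : ℕ) : ℤ) ≤
        ((WW b La x.1 + x.2 : ℕ) : ℤ) := by exact_mod_cast h2
    push_cast at h4
    linarith

end Pool.Agent.EPM
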