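import Pool.Agent.Lib_MP_bed364_mp.Key

/-!
# MP_bed364_nt, many primes: the sums in chunks (so that no kernel computation needs much memory)
-/

set_option autoImplicit false

namespace Pool.Agent.EPM

open Finset

/-- a sum in `n` chunks of length `m` -/
theorem sum_chunks (f : ℕ → ℕ) (m : ℕ) : ∀ n, ∑ i ∈ range (m * n), f i =
    ∑ j ∈ range n, ∑ i ∈ range m, f (m * j + i) := by
  intro n
  induction n with
  | zero => rfl
  | succ n ih => rw [Nat.mul_succ, Finset.sum_range_add, ih, Finset.sum_range_succ]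

/-- a tree sum is at most the sum of the bounds of its chunks -/
theorem rs_le (f : ℕ → ℕ) (d e n l : ℕ) (c : ℕ → ℕ) (hl : l ≤ 2 ^ d) (hn : l ≤ 2 ^ e * n)
    (h : ∀ j < n, rs f e (Nat.succ (Nat.mul (2 ^ e) j)) (2 ^ e) ≤ c j) :
    rs f d 1 l ≤ ∑ j ∈ range n, c j := by
  rw [rs_eq f d 1 l hl]
  have h1 : ∑ i ∈ range l, f (1 + i) ≤ ∑ i ∈ range (2 ^ e * n), f (1 + i) :=
    Finset.sum_le_sum_of_subset fun x hx => mem_range.2 (lt_of_lt_of_le (mem_range.1 hx) hn)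
  refine h1.trans ?_
  rw [sum_chunks (fun i => f (1 + i))]
  refine Finset.sum_le_sum fun j hj => ?_
  have h2 := h j (mem_range.1 hj)
  rw [rs_eq f e _ _ le_rfl] at h2
  refine le_trans (le_of_eq ?_) h2
  refine Finset.sum_congr rfl fun i _ => ?_
  have e1 : 1 + (2 ^ e * j + i) = Nat.succ (Nat.mul (2 ^ e) j) + i := by
    show 1 + (2 ^ e * j + i) = (2 ^ e * j + 1) + i
    ring
  rw [e1]

/-- one of the 16 chunks of `UU` -/
def chk (b : Bool) (La : ℕ) (FL PL : List (ℕ × ℕ)) (j : ℕ) : ℕ :=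
  rs (fun k => fW b La FL (uu b La PL) (Nat.succ (Nat.mul 6 k))) 11 (Nat.succ (Nat.mul 2048 j)) 2048

/-- one of the 16 chunks of `BA1` -/
def chA (j : ℕ) : ℕ :=
  rs (fun k => cond (isQ (Nat.succ (Nat.mul 6 k))) (gA (Nat.succ (Nat.mul 6 k))) 0) 11
    (Nat.succ (Nat.mul 2048 j)) 2048

theorem UU_le (b : Bool) (La : ℕ) (FL PL : List (ℕ × ℕ)) (c : ℕ → ℕ)
    (h : ∀ j < 16, chk b La FL PL j ≤ c j) : UU b La FL PL ≤ ∑ j ∈ range 16, c j :=
  rs_le _ 15 11 16 32767 c (by norm_num) (by norm_num) fun j hj => h j hj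

theorem BA1_le (c : ℕ → ℕ) (h : ∀ j < 16, chA j ≤ c j) : BA1 ≤ ∑ j ∈ range 16, c j :=
  rs_le _ 15 11 16 32767 c (by norm_num) (by norm_num) fun j hj => h j hj

theorem tot_le {b : Bool} {La : ℕ} {FL EL HL : List (ℕ × ℕ)} {T T1 T2 T3 : ℕ} (c : ℕ → ℕ)
    (h1 : Nat.ble (Nat.add (ls (fun x => Nat.add (WW b La x.1) x.2) FL) (Nat.mul 3 (ls (fun x => x.2) EL))) T1
      = true)
    (h2 : ∀ j < 16, chk b La FL (FL ++ EL) j ≤ c j)
    (hc : ∑ j ∈ range 16, c j ≤ T2)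
    (h3 : ls (exc b La FL (FL ++ EL) HL) HL ≤ T3)
    (h4 : Nat.ble (Nat.add T1 (Nat.add T2 T3)) T = true) : Nat.ble (tot b La FL EL HL) T = true := by
  rw [ble_iff] at h1 h4 ⊢
  have h5 := (UU_le b La FL (FL ++ EL) c h2).trans hc
  refine le_trans ?_ h4
  exact Nat.add_le_add h1 (Nat.add_le_add h5 h3)

theorem ls_le_nil (f : ℕ × ℕ → ℕ) : ls f [] ≤ 0 := le_rfl

theorem ls_le_cons (f : ℕ × ℕ → ℕ) (x : ℕ × ℕ) (L : List (ℕ × ℕ)) {a s : ℕ} (h1 : f x ≤ a)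
    (h2 : ls f L ≤ s) : ls f (x :: L) ≤ a + s := by
  rw [ls_cons]
  exact Nat.add_le_add h1 h2

theorem forall_split {α : Type} {p : α → Prop} {L : List α} (n : ℕ) (h1 : ∀ x ∈ L.take n, p x)
    (h2 : ∀ x ∈ L.drop n, p x) : ∀ x ∈ L, p x := by
  intro x hx
  rw [← List.take_append_drop n L, List.mem_append] at hx
  exact hx.elim (h1 x) (h2 x)

end Pool.Agent.EPM
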